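import Mathlib.Algebra.BigOperators.Group.List.Basic
import Mathlib.Order.ConditionallyCompleteLattice.Basic
import Mathlib.Tactic.Ring.RingNF
import Mathlib.Algebra.CharP.Defs
import Mathlib.Algebra.Notation.Lemmas
import Mathlib.Data.Int.ConditionallyCompleteOrder

/-!
Sums of weights over consecutive pairs of a list, cyclic sums, and the gap decomposition.
-/

namespace Pool.Agent.MP_bbfc69_co

variable {V : Type*}

/-- Sum of `w` over the consecutive pairs of a list. -/
def pw (w : V → V → ℤ) : List V → ℤ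
  | a :: b :: t => w a b + pw w (b :: t)
  | _ => 0

/-- Sum of `w` over the cyclically consecutive pairs of a list. -/
def cw (w : V → V → ℤ) : List V → ℤ
  | [] => 0
  | a :: t => pw w (a :: (t ++ [a]))

/-- Sum of `g` over a list. -/
def ls (g : V → ℤ) (L : List V) : ℤ := (L.map g).sum

@[simp] lemma pw_nil (w : V → V → ℤ) : pw w [] = 0 := rfl
@[simp] lemma pw_single (w : V → V → ℤ) (a : V) : pw w [a] = 0 := rfl
@[simp] lemma pw_cons_cons (w : V → V → ℤ) (a b : V) (t : List V) :
    pw w (a :: b :: t) = w a b + pw w (b :: t) := rfl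

@[simp] lemma ls_nil (g : V → ℤ) : ls g [] = 0 := rfl
@[simp] lemma ls_cons (g : V → ℤ) (a : V) (t : List V) : ls g (a :: t) = g a + ls g t := by
  simp [ls]
@[simp] lemma ls_append (g : V → ℤ) (X Y : List V) : ls g (X ++ Y) = ls g X + ls g Y := by
  simp [ls]

lemma ls_perm (g : V → ℤ) {X Y : List V} (h : X.Perm Y) : ls g X = ls g Y :=
  (h.map g).sum_eq

lemma ls_congr {g h : V → ℤ} {L : List V} (H : ∀ x ∈ L, g x = h x) : ls g L = ls h L := by
  induction L with
  | nil => rfl
  | cons a t ih =>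
    simp only [ls_cons]
    rw [H a (by simp), ih (fun x hx => H x (by simp [hx]))]

lemma ls_le {g h : V → ℤ} {L : List V} (H : ∀ x ∈ L, g x ≤ h x) : ls g L ≤ ls h L := by
  induction L with
  | nil => exact le_rfl
  | cons a t ih =>
    simp only [ls_cons]
    have := H a (by simp)
    have := ih (fun x hx => H x (by simp [hx]))
    omega

lemma ls_const (c : ℤ) (L : List V) : ls (fun _ => c) L = c * L.length := by
  induction L with
  | nil => simp
  | cons a t ih => simp only [ls_cons, ih, List.length_cons]; push_cast; ring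

lemma ls_add (g h : V → ℤ) (L : List V) : ls (fun x => g x + h x) L = ls g L + ls h L := by
  induction L with
  | nil => simp
  | cons a t ih => simp only [ls_cons, ih]; ring

lemma ls_sub (g h : V → ℤ) (L : List V) : ls (fun x => g x - h x) L = ls g L - ls h L := by
  induction L with
  | nil => simp
  | cons a t ih => simp only [ls_cons, ih]; ring

lemma ls_mul (c : ℤ) (g : V → ℤ) (L : List V) : ls (fun x => c * g x) L = c * ls g L := by
  induction L with
  | nil => simp
  | cons a t ih => simp only [ls_cons, ih]; ring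

lemma ls_eq_const {g : V → ℤ} {c : ℤ} {L : List V} (H : ∀ x ∈ L, g x = c) :
    ls g L = c * L.length := by
  rw [← ls_const]; exact ls_congr H

lemma ls_nonneg {g : V → ℤ} {L : List V} (H : ∀ x ∈ L, 0 ≤ g x) : 0 ≤ ls g L := by
  have := ls_le (g := fun _ => 0) (h := g) H
  rw [ls_const] at this; omega

lemma le_ls_of_mem {g : V → ℤ} {L : List V} (H : ∀ x ∈ L, 0 ≤ g x) {a : V} (ha : a ∈ L) :
    g a ≤ ls g L := by
  obtain ⟨X, Y, rfl⟩ := List.append_of_mem ha
  have h1 := ls_nonneg (g := g) (L := X) (fun x hx => H x (by simp [hx]))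
  have h2 := ls_nonneg (g := g) (L := Y) (fun x hx => H x (by simp [hx]))
  simp only [ls_append, ls_cons]; omega

lemma pw_append_cons (w : V → V → ℤ) (X : List V) (a : V) (Y : List V) :
    pw w (X ++ a :: Y) = pw w (X ++ [a]) + pw w (a :: Y) := by
  induction X with
  | nil => simp
  | cons x X ih =>
    cases X with
    | nil => simp
    | cons y X =>
      simp only [List.cons_append, pw_cons_cons] at ih ⊢
      rw [ih]; ring

lemma pw_append_of_last (w : V → V → ℤ) {P : List V} {a : V} (ha : P.getLast? = some a)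
    (Y : List V) : pw w (P ++ Y) = pw w P + pw w (a :: Y) := by
  obtain ⟨X, rfl⟩ := List.getLast?_eq_some_iff.mp ha
  rw [List.append_assoc, List.singleton_append, pw_append_cons]

lemma pw_cons_of_head (w : V → V → ℤ) {U : List V} {s : V} (hs : U.head? = some s) (a : V)
    (Y : List V) : pw w (a :: (U ++ Y)) = w a s + pw w (U ++ Y) := by
  obtain ⟨X, rfl⟩ := List.head?_eq_some_iff.mp hs
  simp

lemma pw_link (w : V → V → ℤ) {U : List V} {s t : V} (hs : U.head? = some s)
    (ht : U.getLast? = some t) (a b : V) :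
    pw w (a :: (U ++ [b])) = w a s + pw w U + w t b := by
  rw [pw_cons_of_head w hs, pw_append_of_last w ht]; simp; ring

lemma cw_form (w : V → V → ℤ) {P : List V} {a b : V} (hb : P.head? = some b)
    (ha : P.getLast? = some a) (U : List V) :
    cw w (P ++ U) = pw w P + pw w (a :: (U ++ [b])) := by
  obtain ⟨X, rfl⟩ := List.head?_eq_some_iff.mp hb
  have : cw w (b :: X ++ U) = pw w ((b :: X) ++ (U ++ [b])) := by
    simp [cw]
  rw [this, pw_append_of_last w ha]

lemma cw_comm (w : V → V → ℤ) (X Y : List V) : cw w (X ++ Y) = cw w (Y ++ X) := by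
  cases X with
  | nil => simp
  | cons x X =>
    cases Y with
    | nil => simp
    | cons y Y =>
      have h1 : cw w (x :: X ++ y :: Y) = pw w ((x :: X) ++ y :: (Y ++ [x])) := by simp [cw]
      have h2 : cw w (y :: Y ++ x :: X) = pw w ((y :: Y) ++ x :: (X ++ [y])) := by simp [cw]
      rw [h1, h2, pw_append_cons, pw_append_cons w (y :: Y)]
      simp only [List.cons_append]; ring

lemma pw_add (w w' : V → V → ℤ) (L : List V) :
    pw (fun x y => w x y + w' x y) L = pw w L + pw w' L := by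
  induction L with
  | nil => simp
  | cons a t ih =>
    cases t with
    | nil => simp
    | cons b t => simp only [pw_cons_cons, ih]; ring

lemma pw_sub (w w' : V → V → ℤ) (L : List V) :
    pw (fun x y => w x y - w' x y) L = pw w L - pw w' L := by
  induction L with
  | nil => simp
  | cons a t ih =>
    cases t with
    | nil => simp
    | cons b t => simp only [pw_cons_cons, ih]; ring

lemma pw_mul (c : ℤ) (w : V → V → ℤ) (L : List V) :
    pw (fun x y => c * w x y) L = c * pw w L := by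
  induction L with
  | nil => simp
  | cons a t ih =>
    cases t with
    | nil => simp
    | cons b t => simp only [pw_cons_cons, ih]; ring

lemma pw_le {w w' : V → V → ℤ} {L : List V} (H : ∀ x ∈ L, ∀ y ∈ L, w x y ≤ w' x y) :
    pw w L ≤ pw w' L := by
  induction L with
  | nil => simp
  | cons a t ih =>
    cases t with
    | nil => simp
    | cons b t =>
      simp only [pw_cons_cons]
      have h1 := H a (by simp) b (by simp)
      have h2 := ih (fun x hx y hy => H x (List.mem_cons_of_mem _ hx) y (List.mem_cons_of_mem _ hy))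
      omega

lemma pw_zero (L : List V) : pw (fun _ _ => 0) L = 0 := by
  have := pw_mul 0 (fun _ _ => (0 : ℤ)) L
  simpa using this

lemma pw_nonneg {w : V → V → ℤ} {L : List V} (H : ∀ x ∈ L, ∀ y ∈ L, 0 ≤ w x y) :
    0 ≤ pw w L := by
  have := pw_le (w := fun _ _ => 0) (w' := w) H
  rwa [pw_zero] at this

lemma pw_eq_zero {w : V → V → ℤ} {L : List V} (H : ∀ x ∈ L, ∀ y ∈ L, w x y = 0) :
    pw w L = 0 := by
  have h1 := pw_nonneg (w := w) (L := L) (fun x hx y hy => (H x hx y hy).ge)
  have h2 := pw_le (w := w) (w' := fun _ _ => 0) (L := L) (fun x hx y hy => (H x hx y hy).le)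
  rw [pw_zero] at h2; omega

lemma pw_fst (g : V → ℤ) (X : List V) (b : V) :
    pw (fun x _ => g x) (X ++ [b]) = ls g X := by
  induction X with
  | nil => simp
  | cons a t ih =>
    cases t with
    | nil => simp
    | cons c t =>
      simp only [List.cons_append, pw_cons_cons, ls_cons] at ih ⊢
      rw [ih]

lemma pw_snd (h : V → ℤ) (a : V) (X : List V) :
    pw (fun _ y => h y) (a :: X) = ls h X := by
  induction X generalizing a with
  | nil => simp
  | cons c t ih => simp only [pw_cons_cons, ls_cons, ih]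

lemma pw_fst_last (g : V → ℤ) {P : List V} {a : V} (ha : P.getLast? = some a) :
    pw (fun x _ => g x) P = ls g P - g a := by
  obtain ⟨X, rfl⟩ := List.getLast?_eq_some_iff.mp ha
  rw [pw_fst]; simp

lemma pw_snd_head (h : V → ℤ) {P : List V} {b : V} (hb : P.head? = some b) :
    pw (fun _ y => h y) P = ls h P - h b := by
  obtain ⟨X, rfl⟩ := List.head?_eq_some_iff.mp hb
  rw [pw_snd]; simp

lemma pw_one (a : V) (X : List V) : pw (fun _ _ => (1 : ℤ)) (a :: X) = X.length := by
  rw [pw_snd (fun _ => (1 : ℤ)), ls_const]; simp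

lemma pw_reverse (w : V → V → ℤ) (L : List V) :
    pw w L.reverse = pw (fun x y => w y x) L := by
  induction L with
  | nil => simp
  | cons a t ih =>
    cases t with
    | nil => simp
    | cons b t =>
      simp only [List.reverse_cons, pw_cons_cons] at ih ⊢
      rw [List.append_assoc, List.singleton_append, pw_append_cons, ih]
      simp; ring

lemma cw_add (w w' : V → V → ℤ) (L : List V) :
    cw (fun x y => w x y + w' x y) L = cw w L + cw w' L := by
  cases L with
  | nil => simp [cw]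
  | cons a t => simp only [cw, pw_add]

lemma cw_sub (w w' : V → V → ℤ) (L : List V) :
    cw (fun x y => w x y - w' x y) L = cw w L - cw w' L := by
  cases L with
  | nil => simp [cw]
  | cons a t => simp only [cw, pw_sub]

lemma cw_mul (c : ℤ) (w : V → V → ℤ) (L : List V) :
    cw (fun x y => c * w x y) L = c * cw w L := by
  cases L with
  | nil => simp [cw]
  | cons a t => simp only [cw, pw_mul]

lemma cw_le {w w' : V → V → ℤ} {L : List V} (H : ∀ x ∈ L, ∀ y ∈ L, w x y ≤ w' x y) :
    cw w L ≤ cw w' L := by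
  cases L with
  | nil => simp [cw]
  | cons a t =>
    simp only [cw]
    apply pw_le
    intro x hx y hy
    apply H <;> simp at hx hy ⊢ <;> tauto

lemma cw_nonneg {w : V → V → ℤ} {L : List V} (H : ∀ x y, 0 ≤ w x y) : 0 ≤ cw w L := by
  cases L with
  | nil => simp [cw]
  | cons a t => exact pw_nonneg (fun x _ y _ => H x y)

lemma cw_fst (g : V → ℤ) (L : List V) : cw (fun x _ => g x) L = ls g L := by
  cases L with
  | nil => simp [cw]
  | cons a t =>
    simp only [cw]
    rw [← List.cons_append, pw_fst]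

lemma cw_snd (h : V → ℤ) (L : List V) : cw (fun _ y => h y) L = ls h L := by
  cases L with
  | nil => simp [cw]
  | cons a t =>
    simp only [cw]
    rw [pw_snd]; simp; ring

lemma cw_reverse (w : V → V → ℤ) (L : List V) :
    cw w L.reverse = cw (fun x y => w y x) L := by
  cases L with
  | nil => simp [cw]
  | cons a t =>
    rw [List.reverse_cons, cw_comm]
    simp only [List.singleton_append, cw]
    rw [← pw_reverse]
    simp

/-- Two lists describe the same cyclic sequence, as far as pair sums can tell. -/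
structure Eqv (L L' : List V) : Prop where
  perm : L.Perm L'
  cw_eq : ∀ w : V → V → ℤ, cw w L = cw w L'

lemma Eqv.refl (L : List V) : Eqv L L := ⟨List.Perm.refl L, fun _ => rfl⟩

lemma Eqv.trans {L L' L'' : List V} (h : Eqv L L') (h' : Eqv L' L'') : Eqv L L'' :=
  ⟨h.perm.trans h'.perm, fun w => (h.cw_eq w).trans (h'.cw_eq w)⟩

lemma Eqv.symm {L L' : List V} (h : Eqv L L') : Eqv L' L :=
  ⟨h.perm.symm, fun w => (h.cw_eq w).symm⟩

lemma Eqv.comm (X Y : List V) : Eqv (X ++ Y) (Y ++ X) :=
  ⟨List.perm_append_comm, fun w => cw_comm w X Y⟩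

/-- `L` is, cyclically, the path `P` from `b` to `a` followed by the segment `Z`. -/
structure Gap (L P Z : List V) (a b : V) : Prop where
  eqv : Eqv L (P ++ Z)
  head : P.head? = some b
  last : P.getLast? = some a

/-- `x, y` are cyclically consecutive on `L`. -/
def Pair (L : List V) (x y : V) : Prop := ∃ P, Gap L P [] x y

lemma Gap.cw_eq {L P Z : List V} {a b : V} (h : Gap L P Z a b) (w : V → V → ℤ) :
    cw w L = pw w P + pw w (a :: (Z ++ [b])) := by
  rw [h.eqv.cw_eq, cw_form w h.head h.last]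

lemma Gap.mem {L P Z : List V} {a b : V} (h : Gap L P Z a b) (x : V) :
    x ∈ L ↔ x ∈ P ∨ x ∈ Z := by
  rw [h.eqv.perm.mem_iff, List.mem_append]

lemma Gap.a_mem {L P Z : List V} {a b : V} (h : Gap L P Z a b) : a ∈ P :=
  List.mem_of_getLast? h.last

lemma Gap.b_mem {L P Z : List V} {a b : V} (h : Gap L P Z a b) : b ∈ P :=
  List.mem_of_head? h.head

lemma Gap.length {L P Z : List V} {a b : V} (h : Gap L P Z a b) :
    L.length = P.length + Z.length := by
  rw [h.eqv.perm.length_eq, List.length_append]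

lemma Gap.ls_eq {L P Z : List V} {a b : V} (h : Gap L P Z a b) (g : V → ℤ) :
    ls g L = ls g P + ls g Z := by
  rw [ls_perm g h.eqv.perm, ls_append]

lemma Gap.of_eqv {L L' P Z : List V} {a b : V} (h : Gap L P Z a b) (h' : Eqv L' L) :
    Gap L' P Z a b := ⟨h'.trans h.eqv, h.head, h.last⟩

lemma Gap.pair_inner {L P Z : List V} {a b : V} (h : Gap L P Z a b) {P1 P2 : List V} {x y : V}
    (hP : P = P1 ++ x :: y :: P2) : Pair L x y := by
  refine ⟨(y :: P2) ++ Z ++ (P1 ++ [x]), ?_, by simp,
    List.getLast?_eq_some_iff.mpr ⟨(y :: P2) ++ Z ++ P1, by simp⟩⟩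
  refine h.eqv.trans ?_
  have := Eqv.comm (P1 ++ [x]) ((y :: P2) ++ Z)
  simpa [hP] using this

lemma Gap.pair_first {L P Z : List V} {a b z : V} (h : Gap L P Z a b) (hz : Z.head? = some z) :
    Pair L a z := by
  refine ⟨Z ++ P, ?_, ?_, ?_⟩
  · simpa using h.eqv.trans (Eqv.comm P Z)
  · obtain ⟨X, rfl⟩ := List.head?_eq_some_iff.mp hz; simp
  · obtain ⟨X, hX⟩ := List.getLast?_eq_some_iff.mp h.last
    rw [hX, ← List.append_assoc]; simp

lemma Gap.pair_last {L P Z : List V} {a b z : V} (h : Gap L P Z a b) (hz : Z.getLast? = some z) :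
    Pair L z b := by
  refine ⟨P ++ Z, ?_, ?_, ?_⟩
  · simpa using h.eqv
  · obtain ⟨X, hX⟩ := List.head?_eq_some_iff.mp h.head
    rw [hX]; simp
  · obtain ⟨X, rfl⟩ := List.getLast?_eq_some_iff.mp hz
    rw [← List.append_assoc]; simp

lemma Pair.mem_left {L : List V} {x y : V} (h : Pair L x y) : x ∈ L := by
  obtain ⟨P, h⟩ := h
  exact (h.mem x).2 (Or.inl h.a_mem)

lemma Pair.mem_right {L : List V} {x y : V} (h : Pair L x y) : y ∈ L := by
  obtain ⟨P, h⟩ := h
  exact (h.mem y).2 (Or.inl h.b_mem)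

lemma exists_pair_right {L : List V} {y : V} (hy : y ∈ L) : ∃ x, Pair L x y := by
  obtain ⟨X, Y, rfl⟩ := List.append_of_mem hy
  have hne : (y :: Y) ++ X ≠ [] := by simp
  refine ⟨((y :: Y) ++ X).getLast hne, (y :: Y) ++ X, ?_, by simp, ?_⟩
  · simpa using Eqv.comm X (y :: Y)
  · exact List.getLast?_eq_some_getLast hne

lemma exists_pair_left {L : List V} {x : V} (hx : x ∈ L) : ∃ y, Pair L x y := by
  obtain ⟨X, Y, rfl⟩ := List.append_of_mem hx
  have hne : Y ++ (X ++ [x]) ≠ [] := by simp
  refine ⟨(Y ++ (X ++ [x])).head hne, Y ++ (X ++ [x]), ?_, ?_, ?_⟩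
  · simpa using Eqv.comm (X ++ [x]) Y
  · exact List.head?_eq_some_head hne
  · rw [← List.append_assoc]; simp

lemma exists_first (W : V → Prop) {Q : List V} (h : ∃ x ∈ Q, W x) :
    ∃ Z b Q', Q = Z ++ b :: Q' ∧ W b ∧ ∀ z ∈ Z, ¬ W z := by
  induction Q with
  | nil => simp at h
  | cons c t ih =>
    by_cases hc : W c
    · exact ⟨[], c, t, rfl, hc, by simp⟩
    · obtain ⟨x, hx, hW⟩ := h
      have : x ∈ t := by
        rcases List.mem_cons.mp hx with rfl | h
        · exact absurd hW hc
        · exact h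
      obtain ⟨Z, b, Q', rfl, hb, hZ⟩ := ih ⟨x, this, hW⟩
      refine ⟨c :: Z, b, Q', rfl, hb, ?_⟩
      intro z hz
      rcases List.mem_cons.mp hz with rfl | h
      · exact hc
      · exact hZ z h

lemma exists_last (W : V → Prop) {Q : List V} (h : ∃ x ∈ Q, W x) :
    ∃ Q' a Z, Q = Q' ++ a :: Z ∧ W a ∧ ∀ z ∈ Z, ¬ W z := by
  obtain ⟨Z, b, Q', h1, h2, h3⟩ := exists_first W (Q := Q.reverse) (by simpa using h)
  refine ⟨Q'.reverse, b, Z.reverse, ?_, h2, by simpa using h3⟩
  have := congrArg List.reverse h1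
  simpa using this

/-- A segment of the closed list `b0 :: T ++ [b0]` gives a gap form of `b0 :: T`. -/
lemma gap_of_closed {b0 : V} {T X Z Q' : List V} {a b : V}
    (h : b0 :: (T ++ [b0]) = X ++ a :: (Z ++ b :: Q')) : ∃ P, Gap (b0 :: T) P Z a b := by
  rcases List.eq_nil_or_concat Q' with rfl | ⟨Q'', c, rfl⟩
  · have h' : (b0 :: T) ++ [b0] = (X ++ a :: Z) ++ [b] := by simpa using h
    obtain ⟨h1, h2⟩ := List.append_inj' h' rfl
    have hb : b0 = b := by simpa using h2
    refine ⟨X ++ [a], ?_, ?_, by simp⟩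
    · rw [h1]; simpa using Eqv.refl (X ++ a :: Z)
    · cases X with
      | nil => simp at h1; simp [← hb, h1.1]
      | cons x X => simp at h1; simp [← hb, h1.1]
  · have h' : (b0 :: T) ++ [b0] = (X ++ a :: (Z ++ b :: Q'')) ++ [c] := by simpa using h
    obtain ⟨h1, _⟩ := List.append_inj' h' rfl
    refine ⟨(b :: Q'') ++ (X ++ [a]), ?_, by simp, ?_⟩
    · rw [h1]
      simpa using Eqv.comm (X ++ a :: Z) (b :: Q'')
    · exact List.getLast?_eq_some_iff.mpr ⟨(b :: Q'') ++ X, by simp⟩

/-- Gap decomposition: a positive cyclic sum has a gap with positive sum. -/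
lemma gap_lemma (W : V → Prop) (w : V → V → ℤ) {L : List V} (hW : ∃ x ∈ L, W x)
    (hpos : 0 < cw w L) :
    ∃ P Z a b, Gap L P Z a b ∧ W a ∧ W b ∧ (∀ z ∈ Z, ¬ W z) ∧ 0 < pw w (a :: (Z ++ [b])) := by
  obtain ⟨b0, hb0, hWb0⟩ := hW
  obtain ⟨X0, Y0, rfl⟩ := List.append_of_mem hb0
  have hE : Eqv (X0 ++ b0 :: Y0) (b0 :: (Y0 ++ X0)) := by simpa using Eqv.comm X0 (b0 :: Y0)
  by_contra hcon
  push Not at hcon
  have key : ∀ n : ℕ, ∀ (X : List V) (a : V) (Q : List V), Q.length ≤ n →
      b0 :: ((Y0 ++ X0) ++ [b0]) = X ++ a :: Q → W a → pw w (a :: Q) ≤ 0 := by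
    intro n
    induction n with
    | zero =>
      intro X a Q hQ _ _
      have : Q = [] := List.length_eq_zero_iff.mp (by omega)
      simp [this]
    | succ n ih =>
      intro X a Q hQ hd hWa
      rcases List.eq_nil_or_concat Q with rfl | ⟨Q0, c, rfl⟩
      · simp
      · have h' : (b0 :: (Y0 ++ X0)) ++ [b0] = (X ++ a :: Q0) ++ [c] := by simpa using hd
        have hc : b0 = c := by simpa using (List.append_inj' h' rfl).2
        obtain ⟨Z, b, Q', hQ', hWb, hZ⟩ :=
          exists_first W (Q := Q0.concat c) ⟨c, by simp, hc ▸ hWb0⟩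
        rw [hQ'] at hd hQ ⊢
        obtain ⟨P, hP⟩ := gap_of_closed hd
        have h1 := hcon P Z a b (hP.of_eqv hE) hWa hWb hZ
        have h2 := ih (X ++ a :: Z) b Q' (by simp at hQ; omega) (by simpa using hd) hWb
        have h3 := pw_append_cons w (a :: Z) b Q'
        simp only [List.cons_append] at h3
        omega
  have := key _ [] b0 ((Y0 ++ X0) ++ [b0]) le_rfl rfl hWb0
  rw [hE.cw_eq] at hpos
  simp only [cw] at hpos
  omega

/-- Additive form of the gap decomposition. -/
lemma gap_sum (W : V → Prop) (g h : V → ℤ) (w : V → V → ℤ) {L : List V} (hW : ∃ x ∈ L, W x)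
    (hpos : 0 < ls g L + ls h L - cw w L) :
    ∃ P Z a b, Gap L P Z a b ∧ W a ∧ W b ∧ (∀ z ∈ Z, ¬ W z) ∧
      0 < g a + ls g Z + ls h Z + h b - pw w (a :: (Z ++ [b])) := by
  obtain ⟨P, Z, a, b, h1, h2, h3, h4, h5⟩ :=
    gap_lemma W (fun x y => (g x + h y) - w x y) hW (by
      rw [cw_sub, cw_add, cw_fst, cw_snd]; exact hpos)
  refine ⟨P, Z, a, b, h1, h2, h3, h4, ?_⟩
  rw [pw_sub, pw_add, pw_snd, ← List.cons_append, pw_fst] at h5
  simp only [ls_cons, ls_append, ls_nil, List.cons_append] at h5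
  omega

lemma pair_lemma (w : V → V → ℤ) {L : List V} (hpos : 0 < cw w L) :
    ∃ x y, Pair L x y ∧ 0 < w x y := by
  have hne : ∃ x ∈ L, True := by
    cases L with
    | nil => simp [cw] at hpos
    | cons a t => exact ⟨a, by simp, trivial⟩
  obtain ⟨P, Z, a, b, h1, -, -, h4, h5⟩ := gap_lemma (fun _ => True) w hne hpos
  have hZ : Z = [] := by
    cases Z with
    | nil => rfl
    | cons z Z => exact absurd trivial (h4 z (by simp))
  subst hZ
  exact ⟨a, b, ⟨P, h1⟩, by simpa using h5⟩

lemma path_pair_lemma (w : V → V → ℤ) {P : List V} (hpos : 0 < pw w P) :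
    ∃ P1 x y P2, P = P1 ++ x :: y :: P2 ∧ 0 < w x y := by
  induction P with
  | nil => simp at hpos
  | cons a t ih =>
    cases t with
    | nil => simp at hpos
    | cons b t =>
      by_cases h : 0 < w a b
      · exact ⟨[], a, b, t, rfl, h⟩
      · simp only [pw_cons_cons] at hpos
        obtain ⟨P1, x, y, P2, h1, h2⟩ := ih (by omega)
        exact ⟨a :: P1, x, y, P2, by rw [h1]; rfl, h2⟩

/-- A segment running from an `A`-vertex to a `B`-vertex through vertices in neither class. -/
lemma exists_AB_gap (A B : V → Prop) {L : List V} (hA : ∃ x ∈ L, A x) (hB : ∃ x ∈ L, B x) :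
    ∃ P Z a b, Gap L P Z a b ∧ A a ∧ B b ∧ ∀ z ∈ Z, ¬ A z ∧ ¬ B z := by
  obtain ⟨a0, ha0, hAa0⟩ := hA
  obtain ⟨X0, Y0, rfl⟩ := List.append_of_mem ha0
  have hE : Eqv (X0 ++ a0 :: Y0) (a0 :: (Y0 ++ X0)) := by simpa using Eqv.comm X0 (a0 :: Y0)
  obtain ⟨X, b, Y, h1, hb, hX⟩ := exists_first B (Q := (Y0 ++ X0) ++ [a0]) (by
    obtain ⟨x, hx, hBx⟩ := hB
    refine ⟨x, ?_, hBx⟩
    simp at hx ⊢; tauto)
  obtain ⟨X1, a, Z, h2, ha, hZ⟩ := exists_last A (Q := a0 :: X) ⟨a0, by simp, hAa0⟩
  have h3 : a0 :: ((Y0 ++ X0) ++ [a0]) = X1 ++ a :: (Z ++ b :: Y) := by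
    rw [h1, ← List.cons_append, h2]; simp
  obtain ⟨P, hP⟩ := gap_of_closed h3
  refine ⟨P, Z, a, b, hP.of_eqv hE, ha, hb, fun z hz => ⟨hZ z hz, hX z ?_⟩⟩
  cases X1 with
  | nil => simp at h2; rw [h2.2]; exact hz
  | cons x X1 => simp at h2; rw [h2.2]; simp [hz]

end Pool.Agent.MP_bbfc69_co
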