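import Mathlib.Tactic.Linarith.Frontend
import Mathlib.Data.Prod.Lex
import Mathlib.Algebra.BigOperators.Ring.Finset
import Mathlib.Algebra.Order.BigOperators.Group.Finset
import Mathlib.Data.Int.SuccPred
import Mathlib.Tactic.LinearCombination
import Mathlib.Data.Int.Star
import Mathlib.Algebra.Order.Ring.Star
import Pool.Agent.MP_bbfc69_co.Basic

-- ======== part 0: formerly Pool.Agent.MP_bbfc69_co.Cyc
section MrgPart0

/-!
Oriented cycles as lists, counting of non-neighbours, and the theorem of Ore.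
-/

namespace Pool.Agent.MP_bbfc69_co

variable {V : Type*}

open Classical in
/-- Integer indicator of a proposition. -/
noncomputable def ind (p : Prop) : ℤ := if p then 1 else 0

lemma ind_pos {p : Prop} (h : p) : ind p = 1 := by simp [ind, h]
lemma ind_neg {p : Prop} (h : ¬ p) : ind p = 0 := by simp [ind, h]
lemma ind_nonneg (p : Prop) : 0 ≤ ind p := by unfold ind; split_ifs <;> omega
lemma ind_le_one (p : Prop) : ind p ≤ 1 := by unfold ind; split_ifs <;> omega
lemma of_ind_pos {p : Prop} (h : 0 < ind p) : p := by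
  by_contra h'; rw [ind_neg h'] at h; omega
lemma not_of_ind_lt {p : Prop} (h : ind p < 1) : ¬ p := by
  intro h'; rw [ind_pos h'] at h; omega
lemma ind_cases (p : Prop) : (p ∧ ind p = 1) ∨ (¬ p ∧ ind p = 0) := by
  by_cases h : p
  · exact Or.inl ⟨h, ind_pos h⟩
  · exact Or.inr ⟨h, ind_neg h⟩

/-- Adjacency in the underlying graph. -/
def adj (r : V → V → Prop) (x y : V) : Prop := r x y ∨ r y x

/-- Indicator of a forward arc. -/
noncomputable def fw (r : V → V → Prop) (x y : V) : ℤ := ind (r x y)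

/-- Indicator of a non-adjacent pair. -/
noncomputable def bad (r : V → V → Prop) (x y : V) : ℤ := ind (¬ adj r x y)

/-- Indicator of a non-neighbour of `v` other than `v`. -/
noncomputable def na (r : V → V → Prop) (v x : V) : ℤ := ind (x ≠ v ∧ ¬ adj r v x)

/-- Number of non-neighbours of `v` in `S`, other than `v`. -/
noncomputable def nd (r : V → V → Prop) (S : Finset V) (v : V) : ℤ := ∑ x ∈ S, na r v x

/-- The arc relation is asymmetric. -/
def Asym (r : V → V → Prop) : Prop := ∀ x y, r x y → ¬ r y x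

/-- Ore-type condition for the complement: non-degree sums are at most `c`. -/
def OreC (r : V → V → Prop) (S : Finset V) (c : ℤ) : Prop :=
  ∀ u ∈ S, ∀ v ∈ S, u ≠ v → ¬ adj r u v → nd r S u + nd r S v ≤ c

variable {r : V → V → Prop}

lemma adj_symm {x y : V} (h : adj r x y) : adj r y x := h.symm
lemma adj_comm {x y : V} : adj r x y ↔ adj r y x := or_comm
lemma Asym.ne (hr : Asym r) {x y : V} (h : adj r x y) : x ≠ y := by
  rintro rfl; rcases h with h | h <;> exact hr _ _ h h
lemma Asym.irr (hr : Asym r) (x : V) : ¬ adj r x x := fun h => hr.ne h rfl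

lemma fw_nonneg (x y : V) : 0 ≤ fw r x y := ind_nonneg _
lemma fw_le_one (x y : V) : fw r x y ≤ 1 := ind_le_one _
lemma bad_nonneg (x y : V) : 0 ≤ bad r x y := ind_nonneg _
lemma na_nonneg (x y : V) : 0 ≤ na r x y := ind_nonneg _
lemma na_le_one (x y : V) : na r x y ≤ 1 := ind_le_one _
lemma bad_of_adj {x y : V} (h : adj r x y) : bad r x y = 0 := ind_neg (not_not.mpr h)
lemma bad_of_not {x y : V} (h : ¬ adj r x y) : bad r x y = 1 := ind_pos h
lemma adj_of_bad {x y : V} (h : bad r x y = 0) : adj r x y := by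
  by_contra h'; rw [bad_of_not h'] at h; omega
lemma bad_comm (x y : V) : bad r x y = bad r y x := by simp only [bad, adj_comm (x := x)]
lemma na_self (x : V) : na r x x = 0 := ind_neg (by simp)
lemma na_of_adj {v x : V} (h : adj r v x) : na r v x = 0 := ind_neg (fun h' => h'.2 h)
lemma na_of_not {v x : V} (h1 : x ≠ v) (h : ¬ adj r v x) : na r v x = 1 := ind_pos ⟨h1, h⟩
lemma fw_of {x y : V} (h : r x y) : fw r x y = 1 := ind_pos h
lemma fw_of_not {x y : V} (h : ¬ r x y) : fw r x y = 0 := ind_neg h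
lemma fw_of_not_adj {x y : V} (h : ¬ adj r x y) : fw r x y = 0 := ind_neg (fun h' => h (Or.inl h'))

lemma Asym.fw_add (hr : Asym r) {x y : V} (h : adj r x y) : fw r x y + fw r y x = 1 := by
  rcases h with h | h
  · rw [fw_of h, fw_of_not (hr _ _ h)]; rfl
  · rw [fw_of h, fw_of_not (hr _ _ h)]; rfl

lemma Asym.fw_add_bad (hr : Asym r) (x y : V) : fw r x y + fw r y x + bad r x y = 1 := by
  by_cases h : adj r x y
  · rw [hr.fw_add h, bad_of_adj h]; rfl
  · rw [fw_of_not_adj h, fw_of_not_adj (fun h' => h h'.symm), bad_of_not h]; rfl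

lemma pw_fw_nonneg (L : List V) : 0 ≤ pw (fw r) L := pw_nonneg (fun x _ y _ => fw_nonneg x y)
lemma pw_bad_nonneg (L : List V) : 0 ≤ pw (bad r) L := pw_nonneg (fun x _ y _ => bad_nonneg x y)
lemma pw_bad_reverse (L : List V) : pw (bad r) L.reverse = pw (bad r) L := by
  rw [pw_reverse]; congr 1; funext x y; exact bad_comm y x
lemma cw_bad_reverse (L : List V) : cw (bad r) L.reverse = cw (bad r) L := by
  rw [cw_reverse]; congr 1; funext x y; exact bad_comm y x

lemma pw_fw_le (a : V) (X : List V) : pw (fw r) (a :: X) ≤ X.length := by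
  rw [← pw_one a X]; exact pw_le (fun x _ y _ => fw_le_one x y)

lemma cw_one (L : List V) : cw (fun _ _ => (1 : ℤ)) L = L.length := by
  rw [cw_fst (fun _ => (1 : ℤ)), ls_const]; simp

lemma cw_fw_le (L : List V) : cw (fw r) L ≤ L.length := by
  rw [← cw_one L]; exact cw_le (fun x _ y _ => fw_le_one x y)

lemma Asym.pw_fw_reverse (hr : Asym r) (a : V) (X : List V) (h : pw (bad r) (a :: X) = 0) :
    pw (fw r) (a :: X) + pw (fw r) (a :: X).reverse = X.length := by
  rw [pw_reverse, ← pw_one a X, ← pw_add]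
  have h1 := pw_add (fun x y => fw r x y + fw r y x) (bad r) (a :: X)
  have h2 : (fun x y => fw r x y + fw r y x + bad r x y) = fun _ _ => (1 : ℤ) := by
    funext x y; exact hr.fw_add_bad x y
  rw [h2, h] at h1
  omega

lemma Asym.cw_fw_reverse (hr : Asym r) (L : List V) (h : cw (bad r) L = 0) :
    cw (fw r) L + cw (fw r) L.reverse = L.length := by
  rw [cw_reverse, ← cw_one L, ← cw_add]
  have h1 := cw_add (fun x y => fw r x y + fw r y x) (bad r) L
  have h2 : (fun x y => fw r x y + fw r y x + bad r x y) = fun _ _ => (1 : ℤ) := by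
    funext x y; exact hr.fw_add_bad x y
  rw [h2, h] at h1
  omega

/-- `L` is a cycle of the underlying graph inside `S`. -/
structure Cyc (r : V → V → Prop) (S : Finset V) (L : List V) : Prop where
  nodup : L.Nodup
  sub : ∀ x ∈ L, x ∈ S
  ne : L ≠ []
  good : cw (bad r) L = 0

variable {S : Finset V}

lemma Cyc.reverse {L : List V} (h : Cyc r S L) : Cyc r S L.reverse :=
  ⟨List.nodup_reverse.mpr h.nodup, fun x hx => h.sub x (List.mem_reverse.mp hx),
    by simpa using h.ne, by rw [cw_bad_reverse]; exact h.good⟩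

lemma Cyc.gap_nodup {L P Z : List V} {a b : V} (h : Cyc r S L) (g : Gap L P Z a b) :
    (P ++ Z).Nodup := g.eqv.perm.nodup_iff.mp h.nodup

lemma Cyc.gap_P {L P Z : List V} {a b : V} (h : Cyc r S L) (g : Gap L P Z a b) :
    pw (bad r) P = 0 := by
  have h1 := g.cw_eq (bad r)
  have h2 := pw_bad_nonneg (r := r) P
  have h3 := pw_bad_nonneg (r := r) (a :: (Z ++ [b]))
  rw [h.good] at h1; omega

lemma Cyc.gap_Z {L P Z : List V} {a b : V} (h : Cyc r S L) (g : Gap L P Z a b) :
    pw (bad r) (a :: (Z ++ [b])) = 0 := by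
  have h1 := g.cw_eq (bad r)
  have h2 := h.gap_P g
  rw [h.good] at h1; omega

lemma Cyc.gap_disj {L P Z : List V} {a b : V} (h : Cyc r S L) (g : Gap L P Z a b) {x : V}
    (hx : x ∈ P) (hz : x ∈ Z) : False :=
  (List.nodup_append.mp (h.gap_nodup g)).2.2 x hx x hz rfl

lemma Cyc.pair_adj {L : List V} {x y : V} (h : Cyc r S L) (g : Pair L x y) : adj r x y := by
  obtain ⟨P, g⟩ := g
  have := h.gap_Z g
  simp only [List.nil_append, pw_cons_cons, pw_single, add_zero] at this
  exact adj_of_bad this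

lemma Cyc.replace {L P Z U : List V} {a b : V} (h : Cyc r S L) (g : Gap L P Z a b)
    (hU : U.Nodup) (hUS : ∀ x ∈ U, x ∈ S) (hUP : ∀ x ∈ U, x ∉ P)
    (hgood : pw (bad r) (a :: (U ++ [b])) = 0) : Cyc r S (P ++ U) := by
  refine ⟨?_, ?_, ?_, ?_⟩
  · refine List.nodup_append.mpr ⟨(List.nodup_append.mp (h.gap_nodup g)).1, hU, ?_⟩
    intro x hx y hy hxy
    exact hUP y hy (hxy ▸ hx)
  · intro x hx
    rcases List.mem_append.mp hx with hx | hx
    · exact h.sub x ((g.mem x).2 (Or.inl hx))
    · exact hUS x hx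
  · have := g.a_mem
    intro h0
    rw [(List.append_eq_nil_iff.mp h0).1] at this
    simp at this
  · rw [cw_form _ g.head g.last, h.gap_P g, hgood]; rfl

lemma Gap.cw_replace {L P Z : List V} {a b : V} (g : Gap L P Z a b) (w : V → V → ℤ)
    (U : List V) :
    cw w (P ++ U) = cw w L - pw w (a :: (Z ++ [b])) + pw w (a :: (U ++ [b])) := by
  rw [cw_form _ g.head g.last, g.cw_eq]; ring

lemma Gap.new {L P Z : List V} {a b : V} (g : Gap L P Z a b) (U : List V) :
    Gap (P ++ U) P U a b := ⟨Eqv.refl _, g.head, g.last⟩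

variable [DecidableEq V]

/-- The vertices of `S` missed by `L`. -/
def miss (S : Finset V) (L : List V) : Finset V := S.filter (fun x => x ∉ L)

lemma mem_miss {L : List V} {x : V} : x ∈ miss S L ↔ x ∈ S ∧ x ∉ L := by simp [miss]

lemma sum_split (g : V → ℤ) {L : List V} (hn : L.Nodup) (hs : ∀ x ∈ L, x ∈ S) :
    ∑ x ∈ S, g x = ls g L + ∑ x ∈ miss S L, g x := by
  rw [← Finset.sum_filter_add_sum_filter_not S (fun x => x ∈ L)]
  congr 1
  have : S.filter (fun x => x ∈ L) = L.toFinset := by
    ext x; simp only [Finset.mem_filter, List.mem_toFinset]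
    exact ⟨fun h => h.2, fun h => ⟨hs x h, h⟩⟩
  rw [this, List.sum_toFinset g hn]; rfl

lemma card_split {L : List V} (hn : L.Nodup) (hs : ∀ x ∈ L, x ∈ S) :
    (S.card : ℤ) = L.length + (miss S L).card := by
  have := sum_split (S := S) (fun _ => (1 : ℤ)) hn hs
  rw [ls_const] at this
  simpa using this

lemma nd_split (v : V) {L : List V} (hn : L.Nodup) (hs : ∀ x ∈ L, x ∈ S) :
    nd r S v = ls (na r v) L + nd r (miss S L) v := sum_split _ hn hs

omit [DecidableEq V] in
lemma nd_nonneg (T : Finset V) (v : V) : 0 ≤ nd r T v :=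
  Finset.sum_nonneg (fun x _ => na_nonneg v x)

omit [DecidableEq V] in
lemma nd_mono {T T' : Finset V} (h : T ⊆ T') (v : V) : nd r T v ≤ nd r T' v :=
  Finset.sum_le_sum_of_subset_of_nonneg h (fun x _ _ => na_nonneg v x)

omit [DecidableEq V] in
lemma one_le_nd {T : Finset V} {v x : V} (hx : x ∈ T) (h1 : x ≠ v) (h2 : ¬ adj r v x) :
    1 ≤ nd r T v := by
  rw [← na_of_not h1 h2]
  exact Finset.single_le_sum (fun y _ => na_nonneg v y) hx

omit [DecidableEq V] in
lemma exists_of_nd_pos {T : Finset V} {v : V} (h : 0 < nd r T v) :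
    ∃ x ∈ T, x ≠ v ∧ ¬ adj r v x := by
  by_contra hc
  push Not at hc
  have : nd r T v = 0 := Finset.sum_eq_zero (fun x hx => by
    by_cases hxv : x = v
    · rw [hxv, na_self]
    · exact na_of_adj (hc x hx hxv))
  omega

omit [DecidableEq V] in
lemma ne_last_of_nodup {P P1 P2 : List V} {p q x : V} (hn : P.Nodup)
    (hP : P = P1 ++ p :: q :: P2) (hx : P.getLast? = some x) : p ≠ x := by
  rintro rfl
  have h1 : p ∈ q :: P2 := by
    apply List.mem_of_getLast?
    rw [hP] at hx
    rw [← hx, show P1 ++ p :: q :: P2 = (P1 ++ [p]) ++ (q :: P2) by simp,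
      List.getLast?_append_of_ne_nil _ (by simp)]
  rw [hP] at hn
  have := (List.nodup_append.mp hn).2.1
  exact (List.nodup_cons.mp this).1 h1

omit [DecidableEq V] in
lemma ne_head_of_nodup {P P1 P2 : List V} {p q y : V} (hn : P.Nodup)
    (hP : P = P1 ++ p :: q :: P2) (hy : P.head? = some y) : q ≠ y := by
  rintro rfl
  have h1 : q ∈ P1 ++ [p] := by
    apply List.mem_of_head?
    rw [hP] at hy
    rw [← hy]
    cases P1 <;> simp
  rw [hP, show P1 ++ p :: q :: P2 = (P1 ++ [p]) ++ (q :: P2) by simp] at hn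
  exact (List.nodup_append.mp hn).2.2 q h1 q (by simp) rfl

/-- The theorem of Ore. -/
theorem ore (hS : 2 ≤ S.card) (hO : OreC r S ((S.card : ℤ) - 2)) :
    ∃ L, Cyc r S L ∧ ∀ x ∈ S, x ∈ L := by
  have key : ∀ n : ℕ, ∀ L : List V, L.Nodup → (∀ x, x ∈ L ↔ x ∈ S) → cw (bad r) L ≤ n →
      ∃ L, Cyc r S L ∧ ∀ x ∈ S, x ∈ L := by
    intro n
    induction n with
    | zero =>
      intro L hn hm hc
      have h0 := cw_nonneg (w := bad r) (L := L) bad_nonneg
      refine ⟨L, ⟨hn, fun x hx => (hm x).1 hx, ?_, by simp at hc; omega⟩, fun x hx => (hm x).2 hx⟩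
      rintro rfl
      obtain ⟨x, hx⟩ := Finset.card_pos.mp (show 0 < S.card by omega)
      simpa using (hm x).2 hx
    | succ n ih =>
      intro L hn hm hc
      by_cases h0 : cw (bad r) L ≤ n
      · exact ih L hn hm h0
      obtain ⟨x, y, ⟨P, g⟩, hxy⟩ := pair_lemma (bad r) (L := L) (by omega)
      have hnadj : ¬ adj r x y := of_ind_pos hxy
      have hPn : P.Nodup := by simpa using g.eqv.perm.nodup_iff.mp hn
      have hPm : ∀ z, z ∈ P ↔ z ∈ S := fun z => by rw [← hm z, g.mem z]; simp
      have hmiss : miss S P = ∅ := by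
        ext z; simp only [mem_miss, Finset.notMem_empty, iff_false, not_and, not_not]
        exact (hPm z).2
      have hlen := card_split (S := S) hPn (fun z hz => (hPm z).1 hz)
      have hx := nd_split (r := r) (S := S) x hPn (fun z hz => (hPm z).1 hz)
      have hy := nd_split (r := r) (S := S) y hPn (fun z hz => (hPm z).1 hz)
      simp only [hmiss, Finset.card_empty, nd, Finset.sum_empty] at hlen hx hy
      obtain ⟨T, hT⟩ := List.head?_eq_some_iff.mp g.head
      have hne : x ≠ y := by
        rintro rfl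
        have hTne : T ≠ [] := by
          rintro rfl
          rw [hT] at hlen; simp at hlen; omega
        have : x ∈ T := by
          apply List.mem_of_getLast?
          have := g.last
          rw [hT, show x :: T = [x] ++ T by simp, List.getLast?_append_of_ne_nil _ hTne] at this
          exact this
        rw [hT] at hPn
        exact (List.nodup_cons.mp hPn).1 this
      have hsum := hO x ((hPm x).1 g.a_mem) y ((hPm y).1 g.b_mem) hne hnadj
      obtain ⟨P1, p, q, P2, hP, hpq⟩ :=
        path_pair_lemma (fun p q => (1 - na r x p) - na r y q) (P := P) (by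
          rw [pw_sub, pw_sub, pw_fst_last _ g.last, pw_fst_last _ g.last, pw_snd_head _ g.head,
            ls_const, na_self, na_self]
          unfold nd at hsum
          omega)
      have hp1 := na_nonneg (r := r) x p
      have hq1 := na_nonneg (r := r) y q
      have hxp : adj r x p := by
        by_contra h
        rw [na_of_not (ne_last_of_nodup hPn hP g.last) h] at hpq; omega
      have hyq : adj r y q := by
        by_contra h
        rw [na_of_not (ne_head_of_nodup hPn hP g.head) h] at hpq; omega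
      have hperm : ((P1 ++ [p]).reverse ++ q :: P2).Perm P := by
        rw [hP, show P1 ++ p :: q :: P2 = (P1 ++ [p]) ++ (q :: P2) by simp]
        exact (List.reverse_perm _).append_right _
      apply ih ((P1 ++ [p]).reverse ++ q :: P2) (hperm.nodup_iff.mpr hPn)
        (fun z => by rw [hperm.mem_iff, hPm])
      have hhead : (P1 ++ [p]).reverse.head? = some p := by simp
      have hlast : (P1 ++ [p]).reverse.getLast? = some y := by
        rw [List.getLast?_reverse, ← g.head, hP]
        cases P1 <;> simp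
      have hlast2 : (q :: P2).getLast? = some x := by
        rw [← g.last, hP, show P1 ++ p :: q :: P2 = (P1 ++ [p]) ++ (q :: P2) by simp,
          List.getLast?_append_of_ne_nil _ (by simp)]
      rw [cw_form _ hhead hlast, pw_bad_reverse, pw_link _ (by simp : (q :: P2).head? = some q) hlast2,
        bad_of_adj hyq, bad_of_adj hxp]
      have h1 := g.cw_eq (bad r)
      rw [hP, pw_append_cons] at h1
      simp only [pw_cons_cons, List.nil_append, pw_single] at h1
      have := bad_nonneg (r := r) p q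
      push_cast at hc
      omega
  exact key (cw (bad r) S.toList).toNat S.toList S.nodup_toList (by simp) (by omega)

end Pool.Agent.MP_bbfc69_co

end MrgPart0

-- ======== part 1: formerly Pool.Agent.MP_bbfc69_co.Moves
section MrgPart1

/-!
Insertion and re-insertion moves on cycles.
-/

namespace Pool.Agent.MP_bbfc69_co

variable {V : Type*} {r : V → V → Prop} {S : Finset V} {l : ℤ}

lemma adj_of_na_lt {v x : V} (h1 : x ≠ v) (h : na r v x < 1) : adj r v x := by
  by_contra h'; rw [na_of_not h1 h'] at h; omega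

lemma pigeon {L : List V} {s t : V} (hs : s ∉ L) (ht : t ∉ L)
    (hnp : ∀ x y, Pair L x y → ¬ (adj r x s ∧ adj r y t)) :
    (L.length : ℤ) ≤ ls (na r s) L + ls (na r t) L := by
  by_contra hc
  obtain ⟨x, y, hp, hxy⟩ := pair_lemma (fun x y => (1 - na r s x) - na r t y) (L := L) (by
    rw [cw_sub, cw_sub, cw_one, cw_fst, cw_snd]; omega)
  have h1 := na_nonneg (r := r) s x
  have h2 := na_nonneg (r := r) t y
  exact hnp x y hp ⟨(adj_of_na_lt (v := s) (x := x) (fun h => hs (h ▸ hp.mem_left)) (by omega)).symm,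
    (adj_of_na_lt (v := t) (x := y) (fun h => ht (h ▸ hp.mem_right)) (by omega)).symm⟩

lemma path_pigeon {P : List V} {a b s t : V} (hb : P.head? = some b) (ha : P.getLast? = some a)
    (hs : s ∉ P) (ht : t ∉ P)
    (hnp : ∀ P1 x y P2, P = P1 ++ x :: y :: P2 → ¬ (adj r x s ∧ adj r y t)) :
    (P.length : ℤ) - 1 ≤ ls (na r s) P + ls (na r t) P := by
  by_contra hc
  obtain ⟨P1, x, y, P2, hp, hxy⟩ :=
    path_pair_lemma (fun x y => (1 - na r s x) - na r t y) (P := P) (by
      rw [pw_sub, pw_sub, pw_fst_last _ ha, pw_fst_last _ ha, pw_snd_head _ hb, ls_const]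
      have := na_nonneg (r := r) s a
      have := na_nonneg (r := r) t b
      omega)
  have h1 := na_nonneg (r := r) s x
  have h2 := na_nonneg (r := r) t y
  exact hnp P1 x y P2 hp ⟨(adj_of_na_lt (fun h => hs (by rw [hp, ← h]; simp)) (by omega)).symm,
    (adj_of_na_lt (fun h => ht (by rw [hp, ← h]; simp)) (by omega)).symm⟩

lemma pw_insert (w : V → V → ℤ) (P1 Z P2 : List V) (x y : V) :
    pw w (P1 ++ x :: (Z ++ y :: P2)) =
      pw w (P1 ++ x :: y :: P2) - w x y + pw w (x :: (Z ++ [y])) := by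
  have h1 := pw_append_cons w P1 x (Z ++ y :: P2)
  have h2 := pw_append_cons w P1 x (y :: P2)
  have h3 := pw_append_cons w (x :: Z) y P2
  simp only [List.cons_append, pw_cons_cons] at h1 h2 h3
  omega

variable [DecidableEq V]

lemma cover {T : Finset V} {u v s : V}
    (h : ∀ w ∈ T, w ≠ s → (w ≠ u ∧ ¬ adj r u w) ∨ (w ≠ v ∧ ¬ adj r v w)) :
    (T.card : ℤ) - 1 ≤ nd r T u + nd r T v := by
  have h1 : ((T.erase s).card : ℤ) ≤ ∑ w ∈ T.erase s, (na r u w + na r v w) := by
    rw [Finset.card_eq_sum_ones]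
    push_cast
    apply Finset.sum_le_sum
    intro w hw
    have := na_nonneg (r := r) u w
    have := na_nonneg (r := r) v w
    rcases h w (Finset.mem_of_mem_erase hw) (Finset.ne_of_mem_erase hw) with h | h
    · rw [na_of_not h.1 h.2]; omega
    · rw [na_of_not h.1 h.2]; omega
  have h2 : ∑ w ∈ T.erase s, (na r u w + na r v w) ≤ ∑ w ∈ T, (na r u w + na r v w) :=
    Finset.sum_le_sum_of_subset_of_nonneg (Finset.erase_subset _ _)
      (fun x _ _ => add_nonneg (na_nonneg _ _) (na_nonneg _ _))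
  have h3 := Finset.pred_card_le_card_erase (s := T) (a := s)
  rw [Finset.sum_add_distrib (s := T)] at h2
  unfold nd
  omega

lemma reinsert_pos (hO : OreC r S (2 * l - 1)) (hn : 2 * l + 2 ≤ S.card)
    {L P Z : List V} {a b z1 zr s t : V} (h : Cyc r S L) (g : Gap L P Z a b)
    (hz1 : Z.head? = some z1) (hzr : Z.getLast? = some zr)
    (hs : s ∈ miss S L) (ht : t ∈ miss S L)
    (hZ : ∀ z ∈ Z, ¬ adj r s z ∧ ¬ adj r t z)
    (hnp : ∀ x y, Pair L x y → ¬ (adj r x s ∧ adj r y t))
    (h1 : ((miss S L).card : ℤ) - 1 ≤ nd r (miss S L) z1 + nd r (miss S L) t)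
    (h2 : ((miss S L).card : ℤ) - 1 ≤ nd r (miss S L) zr + nd r (miss S L) s) :
    ∃ P1 x y P2, P = P1 ++ x :: y :: P2 ∧ adj r x z1 ∧ adj r zr y := by
  by_contra hc
  push Not at hc
  have hz1Z := List.mem_of_head? hz1
  have hzrZ := List.mem_of_getLast? hzr
  rw [mem_miss] at hs ht
  have hz1L : z1 ∈ L := (g.mem _).2 (Or.inr hz1Z)
  have hzrL : zr ∈ L := (g.mem _).2 (Or.inr hzrZ)
  have p1 := path_pigeon (r := r) g.head g.last (s := z1) (t := zr)
    (fun hx => h.gap_disj g hx hz1Z) (fun hx => h.gap_disj g hx hzrZ)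
    (fun P1 x y P2 hP hxy => hc P1 x y P2 hP hxy.1 hxy.2.symm)
  have p2 := path_pigeon (r := r) g.head g.last (s := s) (t := t)
    (fun hx => hs.2 ((g.mem _).2 (Or.inl hx))) (fun hx => ht.2 ((g.mem _).2 (Or.inl hx)))
    (fun P1 x y P2 hP hxy => hnp x y (g.pair_inner hP) hxy)
  have e1 := nd_split (r := r) (S := S) z1 h.nodup h.sub
  have e2 := nd_split (r := r) (S := S) zr h.nodup h.sub
  have e3 := nd_split (r := r) (S := S) s h.nodup h.sub
  have e4 := nd_split (r := r) (S := S) t h.nodup h.sub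
  rw [g.ls_eq] at e1 e2 e3 e4
  have f1 := ls_nonneg (g := na r z1) (L := Z) (fun x _ => na_nonneg _ _)
  have f2 := ls_nonneg (g := na r zr) (L := Z) (fun x _ => na_nonneg _ _)
  have f3 := ls_eq_const (g := na r s) (c := 1) (L := Z) (fun x hx =>
    na_of_not (fun e => hs.2 (e ▸ (g.mem _).2 (Or.inr hx))) (hZ x hx).1)
  have f4 := ls_eq_const (g := na r t) (c := 1) (L := Z) (fun x hx =>
    na_of_not (fun e => ht.2 (e ▸ (g.mem _).2 (Or.inr hx))) (hZ x hx).2)
  have o1 := hO z1 (h.sub _ hz1L) t ht.1 (fun e => ht.2 (e ▸ hz1L))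
    (fun e => (hZ z1 hz1Z).2 e.symm)
  have o2 := hO zr (h.sub _ hzrL) s hs.1 (fun e => hs.2 (e ▸ hzrL))
    (fun e => (hZ zr hzrZ).1 e.symm)
  have c1 := card_split (S := S) h.nodup h.sub
  rw [g.length] at c1
  push_cast at c1
  omega

lemma replace_reinsert (hO : OreC r S (2 * l - 1)) (hn : 2 * l + 2 ≤ S.card)
    {L P Z U : List V} {a b z1 zr s t : V} (h : Cyc r S L) (g : Gap L P Z a b)
    (hz1 : Z.head? = some z1) (hzr : Z.getLast? = some zr)
    (hU : U.Nodup) (hUM : ∀ x ∈ U, x ∈ miss S L) (hUg : pw (bad r) U = 0)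
    (hs : U.head? = some s) (ht : U.getLast? = some t)
    (has : adj r a s) (htb : adj r t b)
    (hZ : ∀ z ∈ Z, ¬ adj r s z ∧ ¬ adj r t z)
    (hnp : ∀ x y, Pair L x y → ¬ (adj r x s ∧ adj r y t))
    (h1 : ((miss S L).card : ℤ) - 1 ≤ nd r (miss S L) z1 + nd r (miss S L) t)
    (h2 : ((miss S L).card : ℤ) - 1 ≤ nd r (miss S L) zr + nd r (miss S L) s) :
    ∃ L', Cyc r S L' ∧ (∀ x, x ∈ L' ↔ x ∈ L ∨ x ∈ U) ∧
      cw (fw r) L - fw r a z1 - fw r zr b + fw r a s + pw (fw r) U + fw r t b - 1
        ≤ cw (fw r) L' := by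
  obtain ⟨P1, x, y, P2, hP, hx, hy⟩ := reinsert_pos hO hn h g hz1 hzr
    (hUM s (List.mem_of_head? hs)) (hUM t (List.mem_of_getLast? ht)) hZ hnp h1 h2
  have hperm : (P1 ++ x :: (Z ++ y :: P2)).Perm (P ++ Z) := by
    rw [hP]
    have : (Z ++ y :: P2).Perm (y :: P2 ++ Z) := List.perm_append_comm
    simpa using (this.cons x).append_left P1
  have hhead : (P1 ++ x :: (Z ++ y :: P2)).head? = some b := by
    rw [← g.head, hP]; cases P1 <;> simp
  have hlast : (P1 ++ x :: (Z ++ y :: P2)).getLast? = some a := by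
    rw [← g.last, hP, show P1 ++ x :: y :: P2 = (P1 ++ [x]) ++ (y :: P2) by simp,
      show P1 ++ x :: (Z ++ y :: P2) = (P1 ++ x :: Z) ++ (y :: P2) by simp,
      List.getLast?_append_of_ne_nil _ (by simp), List.getLast?_append_of_ne_nil _ (by simp)]
  have hmem : ∀ z, z ∈ P1 ++ x :: (Z ++ y :: P2) ↔ z ∈ L := fun z => by
    rw [hperm.mem_iff, g.eqv.perm.mem_iff]
  refine ⟨(P1 ++ x :: (Z ++ y :: P2)) ++ U, ⟨?_, ?_, by simp, ?_⟩, ?_, ?_⟩
  · refine List.nodup_append.mpr ⟨hperm.nodup_iff.mpr (h.gap_nodup g), hU, ?_⟩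
    intro p hp q hq hpq
    exact (mem_miss.mp (hUM q hq)).2 (hpq ▸ (hmem p).1 hp)
  · intro p hp
    rcases List.mem_append.mp hp with hp | hp
    · exact h.sub p ((hmem p).1 hp)
    · exact (mem_miss.mp (hUM p hp)).1
  · have e1 := h.gap_P g
    have e2 := h.gap_Z g
    rw [pw_link _ hz1 hzr] at e2
    have := bad_nonneg (r := r) a z1
    have := bad_nonneg (r := r) zr b
    have := pw_bad_nonneg (r := r) Z
    have e3 : bad r x y = 0 := bad_of_adj (h.pair_adj (g.pair_inner hP))
    rw [cw_form _ hhead hlast, pw_insert, ← hP, pw_link _ hz1 hzr, pw_link _ hs ht,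
      bad_of_adj hx, bad_of_adj hy, bad_of_adj has, bad_of_adj htb]
    omega
  · intro p; rw [List.mem_append, hmem]
  · rw [cw_form _ hhead hlast, pw_insert, ← hP, pw_link _ hz1 hzr, pw_link _ hs ht, g.cw_eq,
      pw_link _ hz1 hzr]
    have := fw_le_one (r := r) x y
    have := fw_nonneg (r := r) x z1
    have := fw_nonneg (r := r) zr y
    omega

lemma insert_at {L U : List V} {x y s t : V} (h : Cyc r S L) (hp : Pair L x y)
    (hU : U.Nodup) (hUM : ∀ z ∈ U, z ∈ miss S L) (hUg : pw (bad r) U = 0)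
    (hs : U.head? = some s) (ht : U.getLast? = some t) (hxs : adj r x s) (hty : adj r t y) :
    ∃ L', Cyc r S L' ∧ (∀ z, z ∈ L' ↔ z ∈ L ∨ z ∈ U) ∧
      cw (fw r) L' = cw (fw r) L - fw r x y + fw r x s + pw (fw r) U + fw r t y := by
  obtain ⟨P, g⟩ := hp
  refine ⟨P ++ U, h.replace g hU (fun z hz => (mem_miss.mp (hUM z hz)).1)
    (fun z hz hz' => (mem_miss.mp (hUM z hz)).2 ((g.mem z).2 (Or.inl hz'))) ?_, ?_, ?_⟩
  · rw [pw_link _ hs ht, bad_of_adj hxs, bad_of_adj hty, hUg]; rfl
  · intro z; rw [List.mem_append, g.mem]; simp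
  · rw [g.cw_replace, pw_link _ hs ht]; simp; ring

lemma insert_path (hO : OreC r S (2 * l - 1)) (hn : 2 * l + 2 ≤ S.card)
    {L U : List V} {s t : V} (h : Cyc r S L)
    (hU : U.Nodup) (hUM : ∀ x ∈ U, x ∈ miss S L) (hUg : pw (bad r) U = 0)
    (hs : U.head? = some s) (ht : U.getLast? = some t) (hst : s ≠ t)
    (hA : ∃ x ∈ L, adj r s x) (hB : ∃ x ∈ L, adj r t x)
    (np1 : ∀ w ∈ miss S L, w ≠ s → (w ∈ U ∨ adj r t w) →
      ∀ x y, Pair L x y → ¬ (adj r x s ∧ adj r y w))
    (np2 : ∀ w ∈ miss S L, w ≠ t → (w ∈ U ∨ adj r s w) →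
      ∀ x y, Pair L x y → ¬ (adj r x w ∧ adj r y t)) :
    ∃ L', Cyc r S L' ∧ (∀ x, x ∈ L' ↔ x ∈ L ∨ x ∈ U) ∧
      cw (fw r) L + pw (fw r) U - 3 ≤ cw (fw r) L' := by
  obtain ⟨P, Z, a, b, g, ha, hb, hZ⟩ := exists_AB_gap (adj r s) (adj r t) hA hB
  have hsU := List.mem_of_head? hs
  have htU := List.mem_of_getLast? ht
  have hnp := np1 t (hUM t htU) hst.symm (Or.inl htU)
  have hZne : Z ≠ [] := by
    rintro rfl
    exact hnp a b ⟨P, g⟩ ⟨ha.symm, hb.symm⟩
  have hz1 := List.head?_eq_some_head hZne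
  have hzr := List.getLast?_eq_some_getLast hZne
  set z1 := Z.head hZne
  set zr := Z.getLast hZne
  have hz1L : z1 ∈ L := (g.mem _).2 (Or.inr (List.mem_of_head? hz1))
  have hzrL : zr ∈ L := (g.mem _).2 (Or.inr (List.mem_of_getLast? hzr))
  obtain ⟨L', h1, h2, h3⟩ := replace_reinsert hO hn h g hz1 hzr hU hUM hUg hs ht ha.symm hb hZ hnp
    (cover (s := s) (fun w hw hws => by
      by_cases hc : w ∈ U ∨ adj r t w
      · left
        exact ⟨fun e => (mem_miss.mp hw).2 (e ▸ hz1L),
          fun e => np1 w hw hws hc a z1 (g.pair_first hz1) ⟨ha.symm, e⟩⟩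
      · right
        push Not at hc
        exact ⟨fun e => hc.1 (e ▸ htU), hc.2⟩))
    (cover (s := t) (fun w hw hwt => by
      by_cases hc : w ∈ U ∨ adj r s w
      · left
        exact ⟨fun e => (mem_miss.mp hw).2 (e ▸ hzrL),
          fun e => np2 w hw hwt hc zr b (g.pair_last hzr) ⟨e, hb.symm⟩⟩
      · right
        push Not at hc
        exact ⟨fun e => hc.1 (e ▸ hsU), hc.2⟩))
  refine ⟨L', h1, h2, ?_⟩
  have := fw_le_one (r := r) a z1
  have := fw_le_one (r := r) zr b
  have := fw_nonneg (r := r) a s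
  have := fw_nonneg (r := r) t b
  omega

lemma insert_vertex (hr : Asym r) (hO : OreC r S (2 * l - 1)) (hn : 2 * l + 2 ≤ S.card)
    {L : List V} {y : V} (h : Cyc r S L) (hy : y ∈ miss S L) (hA : ∃ x ∈ L, adj r y x)
    (j : ℤ) (hj : 0 ≤ j)
    (hlam : (∀ x x', Pair L x x' → ¬ (adj r x y ∧ adj r x' y)) →
      0 < cw (fun x x' => (ind (adj r y x) + ind (adj r y x')) * (1 - fw r x x')) L
        + j * ls (fun x => ind (adj r y x)) L) :
    ∃ L', Cyc r S L' ∧ (∀ x ∈ L, x ∈ L') ∧ y ∈ L' ∧ cw (fw r) L - 1 - j ≤ cw (fw r) L' := by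
  by_cases c0 : ∃ x x', Pair L x x' ∧ adj r x y ∧ adj r x' y
  · obtain ⟨x, x', hp, h1, h2⟩ := c0
    obtain ⟨L', a1, a2, a3⟩ := insert_at (U := [y]) (s := y) (t := y) h hp (by simp) (by simpa using hy) (by simp)
      rfl rfl h1 h2.symm
    refine ⟨L', a1, fun z hz => (a2 z).2 (Or.inl hz), (a2 y).2 (by simp), ?_⟩
    have := fw_le_one (r := r) x x'
    have := fw_nonneg (r := r) x y
    have := fw_nonneg (r := r) y x'
    simp only [pw_single] at a3
    omega
  by_cases c1 : ∃ w ∈ miss S L, adj r y w ∧ ∃ x x', Pair L x x' ∧ adj r x y ∧ adj r x' w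
  · obtain ⟨w, hw, hyw, x, x', hp, h1, h2⟩ := c1
    obtain ⟨L', a1, a2, a3⟩ := insert_at (U := [y, w]) (s := y) (t := w) h hp (by simpa using hr.ne hyw)
      (by simpa using ⟨hy, hw⟩) (by simp [bad_of_adj hyw]) rfl rfl h1 h2.symm
    refine ⟨L', a1, fun z hz => (a2 z).2 (Or.inl hz), (a2 y).2 (by simp), ?_⟩
    have := fw_le_one (r := r) x x'
    have := fw_nonneg (r := r) x y
    have := fw_nonneg (r := r) w x'
    have := pw_fw_nonneg (r := r) [y, w]
    omega
  by_cases c2 : ∃ w ∈ miss S L, adj r y w ∧ ∃ x x', Pair L x x' ∧ adj r x w ∧ adj r x' y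
  · obtain ⟨w, hw, hyw, x, x', hp, h1, h2⟩ := c2
    obtain ⟨L', a1, a2, a3⟩ := insert_at (U := [w, y]) (s := w) (t := y) h hp (by simpa using (hr.ne hyw).symm)
      (by simpa using ⟨hw, hy⟩) (by simp [bad_of_adj hyw.symm]) rfl rfl h1 h2.symm
    refine ⟨L', a1, fun z hz => (a2 z).2 (Or.inl hz), (a2 y).2 (by simp), ?_⟩
    have := fw_le_one (r := r) x x'
    have := fw_nonneg (r := r) x w
    have := fw_nonneg (r := r) y x'
    have := pw_fw_nonneg (r := r) [w, y]
    omega
  push Not at c0 c1 c2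
  have hnp : ∀ x x', Pair L x x' → ¬ (adj r x y ∧ adj r x' y) :=
    fun x x' hp hh => c0 x x' hp hh.1 hh.2
  have hpos := hlam hnp
  obtain ⟨P, Z, a, b, g, ha, hb, hZ, hgap⟩ := gap_sum (adj r y)
    (fun x => ind (adj r y x) * (fw r x y + 1 + j)) (fun x => ind (adj r y x) * fw r y x)
    (fun x x' => (ind (adj r y x) + ind (adj r y x')) * fw r x x') hA (by
      have e1 : cw (fun x x' => (ind (adj r y x) + ind (adj r y x')) * (1 - fw r x x')) L =
          ls (fun x => ind (adj r y x)) L + ls (fun x => ind (adj r y x)) L -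
          cw (fun x x' => (ind (adj r y x) + ind (adj r y x')) * fw r x x') L := by
        have q1 := cw_add (fun x _ => ind (adj r y x)) (fun _ x' => ind (adj r y x')) L
        rw [cw_fst, cw_snd] at q1
        rw [← q1, ← cw_sub]
        congr 1; funext x x'; ring
      have e2 : ls (fun x => ind (adj r y x) * (fw r x y + 1 + j)) L +
          ls (fun x => ind (adj r y x) * fw r y x) L =
          (2 + j) * ls (fun x => ind (adj r y x)) L := by
        rw [← ls_add, ← ls_mul]
        apply ls_congr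
        intro x _
        rcases ind_cases (adj r y x) with ⟨h1, h2⟩ | ⟨h1, h2⟩
        · have := hr.fw_add h1
          rw [h2]; linarith
        · rw [h2]; ring
      rw [e2]
      rw [e1] at hpos
      linarith)
  have hZne : Z ≠ [] := by
    rintro rfl
    exact hnp a b ⟨P, g⟩ ⟨ha.symm, hb.symm⟩
  have hz1 := List.head?_eq_some_head hZne
  have hzr := List.getLast?_eq_some_getLast hZne
  set z1 := Z.head hZne
  set zr := Z.getLast hZne
  have hz1Z := List.mem_of_head? hz1
  have hzrZ := List.mem_of_getLast? hzr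
  have hz1L : z1 ∈ L := (g.mem _).2 (Or.inr hz1Z)
  have hzrL : zr ∈ L := (g.mem _).2 (Or.inr hzrZ)
  obtain ⟨L', h1, h2, h3⟩ := replace_reinsert (U := [y]) (s := y) (t := y) hO hn h g hz1 hzr (by simp)
    (by simpa using hy) (by simp) rfl rfl ha.symm hb (fun z hz => ⟨hZ z hz, hZ z hz⟩) hnp
    (cover (s := y) (fun w hw hwy => by
      by_cases hc : adj r y w
      · left
        exact ⟨fun e => (mem_miss.mp hw).2 (e ▸ hz1L),
          fun e => c1 w hw hc a z1 (g.pair_first hz1) ha.symm e⟩
      · right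
        exact ⟨hwy, hc⟩))
    (cover (s := y) (fun w hw hwy => by
      by_cases hc : adj r y w
      · left
        exact ⟨fun e => (mem_miss.mp hw).2 (e ▸ hzrL),
          fun e => c2 w hw hc zr b (g.pair_last hzr) e hb.symm⟩
      · right
        exact ⟨hwy, hc⟩))
  refine ⟨L', h1, fun z hz => (h2 z).2 (Or.inl hz), (h2 y).2 (by simp), ?_⟩
  rw [ls_eq_const (c := 0) (fun x hx => by rw [ind_neg (hZ x hx)]; ring),
    ls_eq_const (c := 0) (fun x hx => by rw [ind_neg (hZ x hx)]; ring), pw_link _ hz1 hzr,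
    pw_eq_zero (fun x hx x' hx' => by rw [ind_neg (hZ x hx), ind_neg (hZ x' hx')]; ring),
    ind_pos ha, ind_pos hb, ind_neg (hZ z1 hz1Z), ind_neg (hZ zr hzrZ)] at hgap
  simp only [pw_single] at h3
  linarith

lemma two_singles (hr : Asym r) (hO : OreC r S (2 * l - 1)) (hn : 2 * l + 2 ≤ S.card)
    {L P1 P2 : List V} {v y1 y2 a1 b1 a2 b2 : V} (h : Cyc r S L) (hv : v ∈ miss S L)
    (g1 : Gap L P1 [y1] a1 b1) (g2 : Gap L P2 [y2] a2 b2)
    (ha1 : adj r v a1) (hb1 : adj r v b1) (hy2 : ¬ adj r v y2)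
    (hne : y1 ≠ y2) (hadj : adj r y1 y2) (he2 : fw r a2 y2 + fw r y2 b2 ≤ 1) :
    ∃ L', Cyc r S L' ∧ (∀ x ∈ L, x ∈ L') ∧ v ∈ L' ∧
      cw (fw r) (P1 ++ [v]) - 1 ≤ cw (fw r) L' := by
  rw [mem_miss] at hv
  have hc : Cyc r S (P1 ++ [v]) := h.replace g1 (by simp) (by simpa using hv.1)
    (by simpa using fun e => hv.2 ((g1.mem v).2 (Or.inl e)))
    (by simp [bad_of_adj ha1.symm, bad_of_adj hb1])
  have hy1L : y1 ∈ L := (g1.mem _).2 (by simp)
  have hy2L : y2 ∈ L := (g2.mem _).2 (by simp)
  have hy2P : y2 ∈ P1 := by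
    rcases (g1.mem _).1 hy2L with e | e
    · exact e
    · exact absurd (List.mem_singleton.mp e).symm hne
  have hy1M : y1 ∈ miss S (P1 ++ [v]) := by
    rw [mem_miss]
    refine ⟨h.sub _ hy1L, ?_⟩
    simp only [List.mem_append, List.mem_singleton, not_or]
    exact ⟨fun e => h.gap_disj g1 e (by simp), fun e => hv.2 (e ▸ hy1L)⟩
  obtain ⟨L', c1, c2, c3, c4⟩ := insert_vertex hr hO hn hc hy1M ⟨y2, by simp [hy2P], hadj⟩ 0 le_rfl
    (fun _ => by
      set w2 : V → V → ℤ := fun x x' => (ind (x = y2) + ind (x' = y2)) * (1 - fw r x x') with hw2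
      have hw2n : ∀ x x', 0 ≤ w2 x x' := fun x x' =>
        mul_nonneg (add_nonneg (ind_nonneg _) (ind_nonneg _)) (sub_nonneg.mpr (fw_le_one _ _))
      have e1 : cw w2 (P1 ++ [v]) ≤
          cw (fun x x' => (ind (adj r y1 x) + ind (adj r y1 x')) * (1 - fw r x x')) (P1 ++ [v]) := by
        apply cw_le
        intro x _ x' _
        apply mul_le_mul_of_nonneg_right _ (sub_nonneg.mpr (fw_le_one _ _))
        have k : ∀ z, ind (z = y2) ≤ ind (adj r y1 z) := fun z => by
          by_cases e : z = y2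
          · rw [ind_pos e, ind_pos (e ▸ hadj)]
          · rw [ind_neg e]; exact ind_nonneg _
        exact add_le_add (k x) (k x')
      have e2 := g2.cw_eq w2
      have e3 := g1.cw_eq w2
      have e4 := (g1.new [v]).cw_eq w2
      have e5 := pw_nonneg (w := w2) (L := P2) (fun x _ x' _ => hw2n x x')
      have e6 := pw_nonneg (w := w2) (L := a1 :: ([v] ++ [b1])) (fun x _ x' _ => hw2n x x')
      have n1 : a1 ≠ y2 := fun e => hy2 (e ▸ ha1)
      have n2 : b1 ≠ y2 := fun e => hy2 (e ▸ hb1)
      have e7 : pw w2 (a1 :: ([y1] ++ [b1])) = 0 := by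
        simp [hw2, ind_neg n1, ind_neg n2, ind_neg hne]
      have e8 : 1 ≤ pw w2 (a2 :: ([y2] ++ [b2])) := by
        simp only [List.singleton_append, pw_cons_cons, pw_single, hw2, ind_pos trivial]
        have := ind_nonneg (a2 = y2)
        have := ind_nonneg (b2 = y2)
        have := fw_le_one (r := r) a2 y2
        have := fw_le_one (r := r) y2 b2
        nlinarith
      omega)
  refine ⟨L', c1, fun x hx => ?_, c2 v (by simp), by omega⟩
  rcases (g1.mem x).1 hx with e | e
  · exact c2 x (by simp [e])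
  · rw [List.mem_singleton.mp e]; exact c3

end Pool.Agent.MP_bbfc69_co

end MrgPart1

-- ======== part 2: formerly Pool.Agent.MP_bbfc69_co.Ext
section MrgPart2

/-!
Extremal rich cycles and their first properties.
-/

namespace Pool.Agent.MP_bbfc69_co

variable {V : Type*} {r : V → V → Prop} {S : Finset V} {l : ℤ}

/-- A gap between two consecutive neighbours of `v` on the cycle `L`. -/
structure VGap (r : V → V → Prop) (L : List V) (v : V) (P Z : List V) (a b : V) : Prop where
  gap : Gap L P Z a b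
  ha : adj r v a
  hb : adj r v b
  hZ : ∀ z ∈ Z, ¬ adj r v z

/-- Change in the number of forward arcs when `Z` is replaced by `v`. -/
noncomputable def gain (r : V → V → Prop) (v : V) (Z : List V) (a b : V) : ℤ :=
  fw r a v + fw r v b - pw (fw r) (a :: (Z ++ [b]))

lemma gain_le (v : V) (Z : List V) (a b : V) : gain r v Z a b ≤ 2 := by
  have := fw_le_one (r := r) a v
  have := fw_le_one (r := r) v b
  have := pw_fw_nonneg (r := r) (a :: (Z ++ [b]))
  unfold gain; omega

lemma ls_ind_eq_le {L : List V} (hn : L.Nodup) (y : V) : ls (fun x => ind (x = y)) L ≤ 1 := by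
  induction L with
  | nil => simp
  | cons a t ih =>
    rw [List.nodup_cons] at hn
    simp only [ls_cons]
    by_cases e : a = y
    · rw [ls_eq_const (g := fun x => ind (x = y)) (c := 0)
        (fun x hx => ind_neg (fun e' => hn.1 (by rw [e, ← e']; exact hx))), ind_pos e]
      simp
    · rw [ind_neg e]; have := ih hn.2; omega

lemma gap_general (hr : Asym r) {L : List V} {v : V} (hn : L.Nodup) (hv : v ∉ L)
    (hA : ∃ x ∈ L, adj r v x) (α β γ c : ℤ) (hc : 0 ≤ c) (y0 : V)
    (hpos : 0 < α * (L.length - ls (na r v) L - cw (fw r) L) + β * (L.length - ls (na r v) L)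
      - γ * ls (na r v) L - c) :
    ∃ P Z a b, VGap r L v P Z a b ∧
      0 < α * gain r v Z a b + β - γ * Z.length - c * ind (y0 ∈ Z) := by
  obtain ⟨P, Z, a, b, g, ha, hb, hZ, hgap⟩ := gap_sum (adj r v)
    (fun x => ind (adj r v x) * (α * fw r x v + β))
    (fun x => ind (adj r v x) * (α * fw r v x) - γ * (1 - ind (adj r v x)) - c * ind (x = y0))
    (fun x y => α * fw r x y) hA (by
      have e1 : ls (fun x => ind (adj r v x) * (α * fw r x v + β)) L +
          ls (fun x => ind (adj r v x) * (α * fw r v x) - γ * (1 - ind (adj r v x))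
            - c * ind (x = y0)) L =
          ls (fun x => (α + β) * (1 - na r v x) - γ * na r v x - c * ind (x = y0)) L := by
        rw [← ls_add]
        apply ls_congr
        intro x hx
        rcases ind_cases (adj r v x) with ⟨h1, h2⟩ | ⟨h1, h2⟩
        · have := hr.fw_add h1
          rw [h2, na_of_adj h1]
          linear_combination α * this
        · rw [h2, na_of_not (v := v) (x := x) (fun e => hv (e ▸ hx)) h1]; ring
      rw [e1, ls_sub, ls_sub, ls_mul, ls_mul, ls_mul, ls_sub, ls_const, cw_mul]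
      have := ls_ind_eq_le hn y0
      nlinarith)
  refine ⟨P, Z, a, b, ⟨g, ha, hb, hZ⟩, ?_⟩
  rw [ls_eq_const (c := 0) (fun x hx => by rw [ind_neg (hZ x hx)]; ring), pw_mul,
    ind_pos ha, ind_pos hb,
    ls_congr (h := fun x => -γ - c * ind (x = y0)) (fun x hx => by rw [ind_neg (hZ x hx)]; ring),
    ls_sub, ls_const, ls_mul] at hgap
  have k1 : ind (y0 ∈ Z) ≤ ls (fun x => ind (x = y0)) Z := by
    rcases ind_cases (y0 ∈ Z) with ⟨h1, h2⟩ | ⟨h1, h2⟩
    · have := le_ls_of_mem (g := fun x => ind (x = y0)) (fun x _ => ind_nonneg _) h1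
      rw [h2]; simpa [ind_pos] using this
    · rw [h2]; exact ls_nonneg (fun x _ => ind_nonneg _)
  have k2 := ind_nonneg (b = y0)
  unfold gain
  nlinarith

variable [DecidableEq V]

lemma VGap.cyc {L P Z : List V} {v a b : V} (h : Cyc r S L) (g : VGap r L v P Z a b)
    (hv : v ∈ miss S L) : Cyc r S (P ++ [v]) := by
  rw [mem_miss] at hv
  exact h.replace g.gap (by simp) (by simpa using hv.1)
    (by simpa using fun e => hv.2 ((g.gap.mem v).2 (Or.inl e)))
    (by simp [bad_of_adj g.ha.symm, bad_of_adj g.hb])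

omit [DecidableEq V] in
lemma VGap.fw_eq {L P Z : List V} {v a b : V} (g : VGap r L v P Z a b) :
    cw (fw r) (P ++ [v]) = cw (fw r) L + gain r v Z a b := by
  rw [g.gap.cw_replace]; simp [gain]; ring

lemma Gap.mem_miss_new {L P Z U : List V} {a b : V} (h : Cyc r S L) (g : Gap L P Z a b)
    (hU : ∀ x ∈ U, x ∉ L) (x : V) :
    x ∈ miss S (P ++ U) ↔ (x ∈ miss S L ∧ x ∉ U) ∨ x ∈ Z := by
  simp only [mem_miss, List.mem_append, g.mem]
  constructor
  · intro hx; tauto
  · rintro (hx | hx)
    · tauto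
    · have hxL := (g.mem x).2 (Or.inr hx)
      exact ⟨h.sub x hxL, fun e => e.elim (fun e => h.gap_disj g e hx) (fun e => hU x e hxL)⟩

/-- Number of missed vertices with at least `l` non-neighbours. -/
noncomputable def nb (r : V → V → Prop) (S : Finset V) (l : ℤ) (L : List V) : ℕ :=
  ((miss S L).filter (fun v => l ≤ nd r S v)).card

/-- A cycle with at least `|S| - l` forward arcs that is extremal for the lexicographic order:
fewest missed big vertices, then fewest missed vertices, then most forward arcs. -/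
structure Ext (r : V → V → Prop) (S : Finset V) (l : ℤ) (L : List V) : Prop where
  cyc : Cyc r S L
  rich : (S.card : ℤ) ≤ cw (fw r) L + l
  min : ∀ L', Cyc r S L' → (S.card : ℤ) ≤ cw (fw r) L' + l →
    nb r S l L < nb r S l L' ∨ (nb r S l L = nb r S l L' ∧
      ((miss S L).card < (miss S L').card ∨
        ((miss S L).card = (miss S L').card ∧ cw (fw r) L' ≤ cw (fw r) L)))

lemma exists_ext (h : ∃ L, Cyc r S L ∧ (S.card : ℤ) ≤ cw (fw r) L + l) : ∃ L, Ext r S l L := by
  let φ : List V → ℕ ×ₗ (ℕ ×ₗ ℕ) := fun L =>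
    toLex (nb r S l L, toLex ((miss S L).card, ((S.card : ℤ) - cw (fw r) L).toNat))
  obtain ⟨L, hL, hmin⟩ := (InvImage.wf φ wellFounded_lt).has_min
    {L | Cyc r S L ∧ (S.card : ℤ) ≤ cw (fw r) L + l} h
  refine ⟨L, hL.1, hL.2, fun L' h1 h2 => ?_⟩
  have := hmin L' ⟨h1, h2⟩
  simp only [InvImage, φ, Prod.Lex.toLex_lt_toLex] at this
  have b1 := cw_fw_le (r := r) L
  have b2 := cw_fw_le (r := r) L'
  have c1 := card_split (S := S) hL.1.nodup hL.1.sub
  have c2 := card_split (S := S) h1.nodup h1.sub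
  omega

lemma Ext.not_rich {L L' : List V} (E : Ext r S l L) (h : Cyc r S L') (hsub : ∀ x ∈ L, x ∈ L')
    {v : V} (hv : v ∈ miss S L) (hv' : v ∈ L') : cw (fw r) L' + l < S.card := by
  by_contra hc
  have hss : miss S L' ⊆ miss S L := fun x hx => by
    rw [mem_miss] at hx ⊢
    exact ⟨hx.1, fun e => hx.2 (hsub x e)⟩
  have h1 : (miss S L').card < (miss S L).card :=
    Finset.card_lt_card ⟨hss, fun e => (mem_miss.mp (e hv)).2 hv'⟩
  have h2 : nb r S l L' ≤ nb r S l L :=
    Finset.card_le_card (Finset.filter_subset_filter _ hss)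
  have := E.min L' h (by omega)
  omega

lemma Ext.pos {L U : List V} {x y s t : V} (E : Ext r S l L) (hp : Pair L x y)
    (hU : U.Nodup) (hUM : ∀ z ∈ U, z ∈ miss S L) (hUg : pw (bad r) U = 0)
    (hs : U.head? = some s) (ht : U.getLast? = some t) (hxs : adj r x s) (hty : adj r t y) :
    cw (fw r) L - fw r x y + fw r x s + pw (fw r) U + fw r t y + l < S.card := by
  obtain ⟨L', a1, a2, a3⟩ := insert_at E.cyc hp hU hUM hUg hs ht hxs hty
  have hsU := List.mem_of_head? hs
  have := E.not_rich a1 (fun z hz => (a2 z).2 (Or.inl hz)) (hUM s hsU) ((a2 s).2 (Or.inr hsU))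
  omega

lemma Ext.np {L U : List V} {s t : V} (E : Ext r S l L)
    (hU : U.Nodup) (hUM : ∀ z ∈ U, z ∈ miss S L) (hUg : pw (bad r) U = 0)
    (hs : U.head? = some s) (ht : U.getLast? = some t) (hq : 1 ≤ pw (fw r) U) :
    ∀ x y, Pair L x y → ¬ (adj r x s ∧ adj r y t) := by
  intro x y hp hxy
  have := E.pos hp hU hUM hUg hs ht hxy.1 hxy.2.symm
  have := E.rich
  have := fw_le_one (r := r) x y
  have := fw_nonneg (r := r) x s
  have := fw_nonneg (r := r) t y
  omega

lemma Ext.has_nbr (hr : Asym r) (hO : OreC r S (2 * l - 1)) (hn : 2 * l + 2 ≤ S.card)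
    {L : List V} (E : Ext r S l L) {s : V} (hs : s ∈ miss S L) : ∃ x ∈ L, adj r s x := by
  classical
  by_contra hc
  push Not at hc
  have hsS := mem_miss.mp hs
  have c1 := card_split (S := S) E.cyc.nodup E.cyc.sub
  have e1 := nd_split (r := r) (S := S) s E.cyc.nodup E.cyc.sub
  rw [ls_eq_const (g := na r s) (c := 1)
    (fun x hx => na_of_not (v := s) (x := x) (fun e => hsS.2 (e ▸ hx)) (hc x hx))] at e1
  have key : ∀ x ∈ L, ∀ p0 : V, ∃ p ∈ miss S L, p ≠ p0 ∧ adj r x p ∧ adj r s p := by
    intro x hx p0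
    by_contra hk
    push Not at hk
    have e2 := nd_split (r := r) (S := S) x E.cyc.nodup E.cyc.sub
    have e3 := ls_nonneg (g := na r x) (L := L) (fun z _ => na_nonneg _ _)
    have o := hO x (E.cyc.sub x hx) s hsS.1 (fun e => hsS.2 (e ▸ hx)) (fun e => hc x hx e.symm)
    have cv := cover (r := r) (T := miss S L) (u := x) (v := s) (s := p0) (fun w hw hwp => by
      by_cases hxw : adj r x w
      · right
        exact ⟨fun e => hc x hx (e ▸ hxw.symm), hk w hw hwp hxw⟩
      · left
        exact ⟨fun e => (mem_miss.mp hw).2 (e ▸ hx), hxw⟩)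
    omega
  have step : ∀ x y, Pair L x y → ∀ p ∈ miss S L, ∀ p' ∈ miss S L, p ≠ p' → adj r x p →
      adj r s p → adj r y p' → adj r s p' → ¬ r p s ∧ ¬ r s p' := by
    intro x y hp p hpm p' hpm' hne h1 h2 h3 h4
    by_contra hcc
    refine E.np (U := [p, s, p']) (s := p) (t := p') ?_ (by simpa using ⟨hpm, hs, hpm'⟩)
      (by simp [bad_of_adj h2.symm, bad_of_adj h4]) rfl rfl ?_ x y hp ⟨h1, h3⟩
    · simp [hne, (hr.ne h2).symm, hr.ne h4]
    · simp only [pw_cons_cons, pw_single]
      have := fw_nonneg (r := r) p s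
      have := fw_nonneg (r := r) s p'
      by_cases k : r p s
      · rw [fw_of k]; omega
      · have k' : r s p' := by tauto
        rw [fw_of k']; omega
  obtain ⟨x, hx⟩ := List.exists_mem_of_ne_nil L E.cyc.ne
  obtain ⟨p, hp, -, h1, h2⟩ := key x hx s
  obtain ⟨y, hy⟩ := exists_pair_left hx
  obtain ⟨y', hy'⟩ := exists_pair_right hx
  obtain ⟨p1, hp1, hne1, h3, h4⟩ := key y hy.mem_right p
  obtain ⟨p2, hp2, hne2, h5, h6⟩ := key y' hy'.mem_left p
  have k1 := (step x y hy p hp p1 hp1 hne1.symm h1 h2 h3 h4).1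
  have k2 := (step y' x hy' p2 hp2 p hp hne2 h5 h6 h1 h2).2
  exact h2.elim k2 k1

lemma Ext.path_le (hr : Asym r) (hO : OreC r S (2 * l - 1)) (hn : 2 * l + 2 ≤ S.card)
    {L : List V} (E : Ext r S l L) (U : List V)
    (hU : U.Nodup) (hUM : ∀ z ∈ U, z ∈ miss S L) (hUg : pw (bad r) U = 0) :
    pw (fw r) U ≤ 2 := by
  induction hN : U.length using Nat.strong_induction_on generalizing U with
  | _ N ih =>
  by_contra hq
  match U, hU, hUM, hUg, hN, hq with
  | [], _, _, _, _, hq => simp at hq
  | [_], _, _, _, _, hq => simp at hq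
  | s :: s2 :: T, hU, hUM, hUg, hN, hq =>
    have b0 := bad_nonneg (r := r) s s2
    have b1 := pw_bad_nonneg (r := r) (s2 :: T)
    by_cases c1 : r s s2
    swap
    · simp only [pw_cons_cons] at hUg hq
      have := ih (s2 :: T).length (by simp at hN ⊢; omega) (s2 :: T) (List.nodup_cons.mp hU).2
        (fun z hz => hUM z (List.mem_cons_of_mem _ hz)) (by omega) rfl
      rw [fw_of_not c1] at hq
      omega
    obtain ⟨T', t2, t, hT⟩ : ∃ T' t2 t, s :: s2 :: T = T' ++ [t2, t] := by
      obtain ⟨X, t, hX⟩ := (List.eq_nil_or_concat (s2 :: T)).resolve_left (by simp)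
      obtain ⟨X', t2, hX'⟩ := (List.eq_nil_or_concat (s :: X)).resolve_left (by simp)
      refine ⟨X', t2, t, ?_⟩
      rw [hX]
      simp only [List.concat_eq_append] at hX' ⊢
      rw [← List.cons_append, hX']; simp
    have hsplit : ∀ w : V → V → ℤ, pw w (s :: s2 :: T) = pw w (T' ++ [t2]) + w t2 t := fun w => by
      rw [hT, pw_append_cons]; simp
    by_cases c2 : r t2 t
    swap
    · have b2 := bad_nonneg (r := r) t2 t
      have b3 := pw_bad_nonneg (r := r) (T' ++ [t2])
      have hl := congrArg List.length hT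
      have hsub : (T' ++ [t2]).Sublist (s :: s2 :: T) := by rw [hT]; simp
      rw [hsplit] at hUg hq
      have := ih (T' ++ [t2]).length (by simp at hN hl ⊢; omega) (T' ++ [t2]) (hU.sublist hsub)
        (fun z hz => hUM z (hsub.subset hz)) (by omega) rfl
      rw [fw_of_not c2] at hq
      omega
    have ht : (s :: s2 :: T).getLast? = some t := by rw [hT]; simp
    have htU := List.mem_of_getLast? ht
    have hst : s ≠ t := by
      rintro rfl
      have : s ∈ s2 :: T := by
        apply List.mem_of_getLast?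
        rw [← ht]; simp
      exact (List.nodup_cons.mp hU).1 this
    obtain ⟨L', a1, a2, a3⟩ := insert_path hO hn E.cyc hU hUM hUg rfl ht hst
      (E.has_nbr hr hO hn (hUM s (by simp))) (E.has_nbr hr hO hn (hUM t htU))
      (fun w hw hws hc => by
        by_cases hwU : w ∈ s :: s2 :: T
        · have hw2 : w ∈ s2 :: T := (List.mem_cons.mp hwU).resolve_left hws
          obtain ⟨X, Y, hXY⟩ := List.append_of_mem hw2
          have hsub : (s :: (X ++ [w])).Sublist (s :: s2 :: T) := by rw [hXY]; simp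
          have e1 : ∀ w' : V → V → ℤ, pw w' (s :: s2 :: T) =
              pw w' (s :: (X ++ [w])) + pw w' (w :: Y) := fun w' => by
            rw [hXY, ← List.cons_append, pw_append_cons]; rfl
          have b2 := pw_bad_nonneg (r := r) (s :: (X ++ [w]))
          have b3 := pw_bad_nonneg (r := r) (w :: Y)
          refine E.np (U := s :: (X ++ [w])) (hU.sublist hsub) (fun z hz => hUM z (hsub.subset hz))
            (by rw [e1] at hUg; omega) rfl
            (List.getLast?_eq_some_iff.mpr ⟨s :: X, by simp⟩) ?_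
          have hh : (X ++ [w]).head? = some s2 := by
            cases X with
            | nil => simp at hXY ⊢; exact hXY.1.symm
            | cons c X => simp at hXY ⊢; exact hXY.1.symm
          obtain ⟨X', hX'⟩ := List.head?_eq_some_iff.mp hh
          rw [hX', pw_cons_cons, fw_of c1]
          have := pw_fw_nonneg (r := r) (s2 :: X')
          omega
        · have htw : adj r t w := hc.resolve_left hwU
          refine E.np (U := (s :: s2 :: T) ++ [w]) ?_ ?_ ?_ rfl
            (List.getLast?_eq_some_iff.mpr ⟨_, rfl⟩) ?_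
          · exact List.nodup_append.mpr ⟨hU, by simp, fun p hp q hq e => hwU (by
              rw [List.mem_singleton.mp hq] at e; exact e ▸ hp)⟩
          · intro z hz
            rcases List.mem_append.mp hz with hz | hz
            · exact hUM z hz
            · rw [List.mem_singleton.mp hz]; exact hw
          · rw [pw_append_of_last _ ht, hUg]; simp [bad_of_adj htw]
          · rw [pw_append_of_last _ ht]
            have := pw_fw_nonneg (r := r) [t, w]
            omega)
      (fun w hw hwt hc => by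
        by_cases hwU : w ∈ s :: s2 :: T
        · have hw2 : w ∈ T' ++ [t2] := by
            rw [hT, show T' ++ [t2, t] = (T' ++ [t2]) ++ [t] by simp] at hwU
            exact (List.mem_append.mp hwU).resolve_right (by simpa using hwt)
          obtain ⟨X, Y, hXY⟩ := List.append_of_mem hw2
          have hT2 : s :: s2 :: T = X ++ w :: (Y ++ [t]) := by
            rw [hT, show T' ++ [t2, t] = (T' ++ [t2]) ++ [t] by simp, hXY]; simp
          have hsub : (w :: (Y ++ [t])).Sublist (s :: s2 :: T) := by rw [hT2]; simp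
          have e1 : ∀ w' : V → V → ℤ, pw w' (s :: s2 :: T) =
              pw w' (X ++ [w]) + pw w' (w :: (Y ++ [t])) := fun w' => by
            rw [hT2, pw_append_cons]
          have b2 := pw_bad_nonneg (r := r) (X ++ [w])
          have b3 := pw_bad_nonneg (r := r) (w :: (Y ++ [t]))
          refine E.np (U := w :: (Y ++ [t])) (hU.sublist hsub) (fun z hz => hUM z (hsub.subset hz))
            (by rw [e1] at hUg; omega) rfl
            (List.getLast?_eq_some_iff.mpr ⟨w :: Y, by simp⟩) ?_
          have hh : (w :: Y).getLast? = some t2 := by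
            have := congrArg List.getLast? hXY
            rw [List.getLast?_append_of_ne_nil _ (by simp),
              List.getLast?_append_of_ne_nil _ (by simp)] at this
            rw [← this]; simp
          rw [← List.cons_append, pw_append_of_last _ hh, pw_cons_cons, fw_of c2]
          have := pw_fw_nonneg (r := r) (w :: Y)
          simp only [pw_single]
          omega
        · have hsw : adj r s w := hc.resolve_left hwU
          refine E.np (U := w :: s :: s2 :: T) (List.nodup_cons.mpr ⟨hwU, hU⟩) ?_ ?_ rfl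
            (by rw [← ht]; simp) ?_
          · intro z hz
            rcases List.mem_cons.mp hz with hz | hz
            · rw [hz]; exact hw
            · exact hUM z hz
          · rw [pw_cons_cons, hUg, bad_of_adj hsw.symm]; rfl
          · rw [pw_cons_cons]
            have := fw_nonneg (r := r) w s
            omega)
    have := E.not_rich a1 (fun z hz => (a2 z).2 (Or.inl hz)) (hUM s (by simp))
      ((a2 s).2 (Or.inr (by simp)))
    have := E.rich
    omega

end Pool.Agent.MP_bbfc69_co

end MrgPart2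

-- ======== part 3: formerly Pool.Agent.MP_bbfc69_co.Small
section MrgPart3

/-!
Small missed vertices, and the shape of the missed set of an extremal cycle.
-/

namespace Pool.Agent.MP_bbfc69_co

variable {V : Type*} {r : V → V → Prop} {S : Finset V} {l : ℤ} [DecidableEq V]

lemma Ext.small_gap (hr : Asym r) (hO : OreC r S (2 * l - 1)) (hn : 2 * l + 2 ≤ S.card)
    {L P Z : List V} {v a b : V} (E : Ext r S l L) (hv : v ∈ miss S L)
    (g : VGap r L v P Z a b) (ht : 0 < gain r v Z a b + 1 - Z.length) :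
    ∃ y, Z = [y] ∧ l ≤ nd r S y := by
  have hc := g.cyc E.cyc hv
  have hf := g.fw_eq
  have hrich := E.rich
  have hg := gain_le (r := r) v Z a b
  have hvL := (mem_miss.mp hv).2
  have hmm := fun x => g.gap.mem_miss_new (U := [v]) E.cyc (by simpa using hvL) x
  match Z, g, ht, hc, hf, hg, hmm with
  | [], g, ht, hc, hf, hg, hmm =>
    have := E.not_rich hc (fun x hx => by
      have := (g.gap.mem x).1 hx
      simp at this; simp [this]) hv (by simp)
    simp at ht; omega
  | [z], g, ht, hc, hf, hg, hmm =>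
    refine ⟨z, rfl, ?_⟩
    by_contra hz
    have hzL : z ∈ L := (g.gap.mem z).2 (by simp)
    have hset : miss S (P ++ [v]) = insert z ((miss S L).erase v) := by
      ext x; rw [hmm x]; simp; tauto
    have h1 : (miss S (P ++ [v])).card = (miss S L).card := by
      rw [hset, Finset.card_insert_of_notMem (fun e => (mem_miss.mp (Finset.mem_of_mem_erase e)).2 hzL),
        Finset.card_erase_of_mem hv]
      have := Finset.card_pos.mpr ⟨v, hv⟩
      omega
    have h2 : nb r S l (P ++ [v]) ≤ nb r S l L := by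
      apply Finset.card_le_card
      intro x hx
      rw [Finset.mem_filter] at hx ⊢
      rcases (hmm x).1 hx.1 with e | e
      · exact ⟨e.1, hx.2⟩
      · rw [List.mem_singleton.mp e] at hx; exact absurd hx.2 hz
    have := E.min _ hc (by simp at ht; omega)
    simp at ht; omega
  | [z1, z2], g, ht, hc, hf, hg, hmm =>
    exfalso
    have hge : gain r v [z1, z2] a b = 2 := by simp at ht; omega
    have hbad := E.cyc.gap_Z g.gap
    simp only [List.cons_append, List.nil_append, pw_cons_cons, pw_single] at hbad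
    have b1 := bad_nonneg (r := r) a z1
    have b2 := bad_nonneg (r := r) z1 z2
    have b3 := bad_nonneg (r := r) z2 b
    have a1 : adj r a z1 := adj_of_bad (by omega)
    have a2 : adj r z1 z2 := adj_of_bad (by omega)
    have a3 : adj r z2 b := adj_of_bad (by omega)
    have hfw : fw r z2 z1 = 1 := by
      have := hr.fw_add a2
      have := fw_le_one (r := r) a v
      have := fw_le_one (r := r) v b
      have := fw_nonneg (r := r) a z1
      have := fw_nonneg (r := r) z1 z2
      have := fw_nonneg (r := r) z2 b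
      simp only [gain, List.cons_append, List.nil_append, pw_cons_cons, pw_single] at hge
      omega
    have hz1 : z1 ∈ miss S (P ++ [v]) := (hmm z1).2 (by simp)
    have hz2 : z2 ∈ miss S (P ++ [v]) := (hmm z2).2 (by simp)
    have hne : z2 ≠ z1 := (hr.ne a2).symm
    have fin : ∀ L', Cyc r S L' → (∀ x ∈ P ++ [v], x ∈ L') → z1 ∈ L' → z2 ∈ L' →
        cw (fw r) (P ++ [v]) - 2 ≤ cw (fw r) L' → False := by
      intro L' k1 k2 k3 k4 k5
      have := E.not_rich k1 (fun x hx => by
        rcases (g.gap.mem x).1 hx with e | e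
        · exact k2 x (by simp [e])
        · simp at e; rcases e with e | e <;> rw [e] <;> assumption) hv (k2 v (by simp))
      omega
    have gen : ∀ (U : List V) (s t : V), U.Nodup → (∀ z ∈ U, z ∈ miss S (P ++ [v])) →
        pw (bad r) U = 0 → U.head? = some s → U.getLast? = some t → z1 ∈ U → z2 ∈ U →
        ∀ x y, Pair (P ++ [v]) x y → ¬ (adj r x s ∧ adj r y t) := by
      intro U s t k1 k2 k3 k4 k5 k6 k7 x y hp hxy
      obtain ⟨L', m1, m2, m3⟩ := insert_at hc hp k1 k2 k3 k4 k5 hxy.1 hxy.2.symm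
      refine fin L' m1 (fun x hx => (m2 x).2 (Or.inl hx)) ((m2 _).2 (Or.inr k6))
        ((m2 _).2 (Or.inr k7)) ?_
      have := fw_le_one (r := r) x y
      have := fw_nonneg (r := r) x s
      have := fw_nonneg (r := r) t y
      have := pw_fw_nonneg (r := r) U
      omega
    obtain ⟨L', m1, m2, m3⟩ := insert_path (U := [z2, z1]) (s := z2) (t := z1) hO hn hc
      (by simpa using hne) (by simpa using ⟨hz2, hz1⟩) (by simp [bad_of_adj a2.symm]) rfl rfl hne
      ⟨b, by simp [g.gap.b_mem], a3⟩ ⟨a, by simp [g.gap.a_mem], a1.symm⟩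
      (fun w hw hws hcase => by
        by_cases e : w = z1
        · rw [e]
          exact gen [z2, z1] z2 z1 (by simpa using hne) (by simpa using ⟨hz2, hz1⟩)
            (by simp [bad_of_adj a2.symm]) rfl rfl (by simp) (by simp)
        · have hw1 : adj r z1 w := hcase.resolve_left (by simp [e, hws])
          exact gen [z2, z1, w] z2 w (by simp [hne, Ne.symm hws, Ne.symm e])
            (by simpa using ⟨hz2, hz1, hw⟩)
            (by simp [bad_of_adj a2.symm, bad_of_adj hw1]) rfl rfl (by simp) (by simp))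
      (fun w hw hwt hcase => by
        by_cases e : w = z2
        · rw [e]
          exact gen [z2, z1] z2 z1 (by simpa using hne) (by simpa using ⟨hz2, hz1⟩)
            (by simp [bad_of_adj a2.symm]) rfl rfl (by simp) (by simp)
        · have hw1 : adj r z2 w := hcase.resolve_left (by simp [e, hwt])
          exact gen [w, z2, z1] w z1 (by simp [hne, hwt, e])
            (by simpa using ⟨hw, hz2, hz1⟩)
            (by simp [bad_of_adj a2.symm, bad_of_adj hw1.symm]) rfl rfl (by simp) (by simp))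
    refine fin L' m1 (fun x hx => (m2 x).2 (Or.inl hx)) ((m2 _).2 (by simp)) ((m2 _).2 (by simp)) ?_
    simp only [pw_cons_cons, pw_single, hfw] at m3
    omega
  | z1 :: z2 :: z3 :: Z, g, ht, hc, hf, hg, hmm =>
    simp at ht; omega

omit [DecidableEq V] in
lemma big_adj (hO : OreC r S (2 * l - 1)) {x y : V} (hx : x ∈ S) (hy : y ∈ S) (hne : x ≠ y)
    (h1 : l ≤ nd r S x) (h2 : l ≤ nd r S y) : adj r x y := by
  by_contra h
  have := hO x hx y hy hne h
  omega

omit [DecidableEq V] in
lemma gain_single_le {v y a b : V} (h : 1 ≤ gain r v [y] a b) : fw r a y + fw r y b ≤ 1 := by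
  have := fw_le_one (r := r) a v
  have := fw_le_one (r := r) v b
  simp only [gain, List.cons_append, List.nil_append, pw_cons_cons, pw_single] at h
  omega

lemma Ext.small_sum (hr : Asym r) (hO : OreC r S (2 * l - 1)) (hn : 2 * l + 2 ≤ S.card)
    {L : List V} {v : V} (E : Ext r S l L) (hv : v ∈ miss S L) :
    2 * (L.length : ℤ) - 3 * ls (na r v) L - cw (fw r) L ≤ 2 := by
  by_contra hc
  have hvL := (mem_miss.mp hv).2
  have hA := E.has_nbr hr hO hn hv
  obtain ⟨P1, Z1, a1, b1, g1, k1⟩ := gap_general hr E.cyc.nodup hvL hA 1 1 1 0 le_rfl v (by omega)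
  obtain ⟨y1, rfl, hy1⟩ := E.small_gap hr hO hn hv g1 (by omega)
  obtain ⟨P2, Z2, a2, b2, g2, k2⟩ := gap_general hr E.cyc.nodup hvL hA 1 1 1 2 (by omega) y1
    (by omega)
  have i0 := ind_nonneg (y1 ∈ Z2)
  obtain ⟨y2, rfl, hy2⟩ := E.small_gap hr hO hn hv g2 (by omega)
  have hg2 := gain_le (r := r) v [y2] a2 b2
  have hne : y1 ≠ y2 := by
    rintro rfl
    rw [ind_pos (by simp)] at k2
    simp at k2; omega
  have hy1S : y1 ∈ S := E.cyc.sub _ ((g1.gap.mem _).2 (by simp))
  have hy2S : y2 ∈ S := E.cyc.sub _ ((g2.gap.mem _).2 (by simp))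
  obtain ⟨L', m1, m2, m3, m4⟩ := two_singles hr hO hn E.cyc hv g1.gap g2.gap g1.ha g1.hb
    (g2.hZ y2 (by simp)) hne (big_adj hO hy1S hy2S hne hy1 hy2)
    (gain_single_le (v := v) (by simp only [List.length_singleton] at k2; omega))
  have := E.not_rich m1 m2 hv m3
  have := g1.fw_eq
  have := E.rich
  simp at k1
  omega

/-- A missed vertex with few non-neighbours on the cycle forces the slack to vanish. -/
lemma Ext.slack_zero {L : List V} {v : V} (E : Ext r S l L) (hv : v ∈ miss S L)
    (h : 2 * ls (na r v) L < L.length) : cw (fw r) L + l = S.card := by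
  have hvL := (mem_miss.mp hv).2
  by_contra hc
  have := pigeon (r := r) hvL hvL (fun x y hp hxy => by
    have := E.pos (U := [v]) (s := v) (t := v) hp (by simp) (by simpa using hv) (by simp) rfl rfl
      hxy.1 hxy.2.symm
    have := E.rich
    have := fw_le_one (r := r) x y
    have := fw_nonneg (r := r) x v
    have := fw_nonneg (r := r) v y
    simp only [pw_single] at *
    omega)
  omega

lemma nd_isolated {T : Finset V} {v : V} (hv : v ∈ T) (h : ∀ w ∈ T, ¬ adj r v w) :
    nd r T v = T.card - 1 := by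
  unfold nd
  rw [← Finset.add_sum_erase _ _ hv, na_self, Finset.sum_congr rfl (g := fun _ => (1 : ℤ))
    (fun x hx => na_of_not (Finset.ne_of_mem_erase hx) (h x (Finset.mem_of_mem_erase hx)))]
  have := Finset.card_pos.mpr ⟨v, hv⟩
  simp [Finset.card_erase_of_mem hv]
  omega

lemma Ext.isolated_big (hr : Asym r) (hO : OreC r S (2 * l - 1)) (hn : 2 * l + 2 ≤ S.card)
    {L : List V} {v : V} (E : Ext r S l L) (hv : v ∈ miss S L)
    (hiso : ∀ w ∈ miss S L, ¬ adj r v w) : l ≤ nd r S v := by
  by_contra hsm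
  have e1 := nd_split (r := r) (S := S) v E.cyc.nodup E.cyc.sub
  have c1 := card_split (S := S) E.cyc.nodup E.cyc.sub
  rw [nd_isolated hv hiso] at e1
  have := Finset.card_pos.mpr ⟨v, hv⟩
  have s0 := E.slack_zero hv (by omega)
  have := E.small_sum hr hO hn hv
  omega

lemma Ext.npc (hr : Asym r) {L : List V} (E : Ext r S l L) {s t : V} {X : List V}
    (hU : (s :: X).Nodup) (hUM : ∀ z ∈ s :: X, z ∈ miss S L) (hUg : pw (bad r) (s :: X) = 0)
    (hX : X ≠ []) (ht : (s :: X).getLast? = some t) :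
    (L.length : ℤ) ≤ ls (na r s) L + ls (na r t) L := by
  have hsL := (mem_miss.mp (hUM s (by simp))).2
  have htL := (mem_miss.mp (hUM t (List.mem_of_getLast? ht))).2
  have h1 := hr.pw_fw_reverse s X hUg
  have h2 : 0 < X.length := List.length_pos_iff.mpr hX
  by_cases hq : 1 ≤ pw (fw r) (s :: X)
  · exact pigeon hsL htL (E.np hU hUM hUg rfl ht hq)
  · have := pigeon (r := r) htL hsL (E.np (U := (s :: X).reverse) (List.nodup_reverse.mpr hU)
      (fun z hz => hUM z (List.mem_reverse.mp hz)) (by rw [pw_bad_reverse]; exact hUg)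
      (by rw [List.head?_reverse]; exact ht) (by rw [List.getLast?_reverse]; rfl) (by omega))
    omega

omit [DecidableEq V] in
lemma cover0 {T : Finset V} {u v : V}
    (h : ∀ w ∈ T, (w ≠ u ∧ ¬ adj r u w) ∨ (w ≠ v ∧ ¬ adj r v w)) :
    (T.card : ℤ) ≤ nd r T u + nd r T v := by
  unfold nd
  rw [← Finset.sum_add_distrib, Finset.card_eq_sum_ones]
  push_cast
  apply Finset.sum_le_sum
  intro w hw
  have := na_nonneg (r := r) u w
  have := na_nonneg (r := r) v w
  rcases h w hw with h | h
  · rw [na_of_not h.1 h.2]; omega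
  · rw [na_of_not h.1 h.2]; omega

omit [DecidableEq V] in
lemma cover_nocommon {T : Finset V} {x x' : V} (hne : x ≠ x') (hna : ¬ adj r x x')
    (h : ¬ ∃ w ∈ T, adj r x w ∧ adj r x' w) : (T.card : ℤ) ≤ nd r T x + nd r T x' := by
  push Not at h
  apply cover0
  intro w hw
  by_cases e1 : w = x
  · right; rw [e1]; exact ⟨hne, fun e => hna e.symm⟩
  by_cases e2 : adj r x w
  · right; exact ⟨fun e => hna (e ▸ e2), h w hw e2⟩
  · left; exact ⟨e1, e2⟩

lemma Ext.k1 (hr : Asym r) (hO : OreC r S (2 * l - 1)) (hn : 2 * l + 2 ≤ S.card)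
    {L : List V} (E : Ext r S l L) {x x' w w' : V} (hx : x ∈ miss S L) (hx' : x' ∈ miss S L)
    (hne : x ≠ x') (hna : ¬ adj r x x') (hw : w ∈ miss S L) (hw' : w' ∈ miss S L)
    (hxw : adj r x w) (hxw' : adj r x' w') :
    (L.length : ℤ) ≤ ls (na r x) L + ls (na r x') L := by
  by_cases c1 : ∃ u ∈ miss S L, adj r x u ∧ adj r x' u
  · obtain ⟨u, hu, h1, h2⟩ := c1
    exact E.npc hr (X := [u, x']) (by simp [hr.ne h1, hne, (hr.ne h2).symm])
      (by simpa using ⟨hx, hu, hx'⟩) (by simp [bad_of_adj h1, bad_of_adj h2.symm]) (by simp) rfl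
  have n1 : w ≠ w' := fun e => c1 ⟨w, hw, hxw, e ▸ hxw'⟩
  have n2 : ¬ adj r x' w := fun e => c1 ⟨w, hw, hxw, e⟩
  have n3 : ¬ adj r x w' := fun e => c1 ⟨w', hw', e, hxw'⟩
  have n4 : w ≠ x' := fun e => hna (e ▸ hxw)
  have n5 : x ≠ w' := fun e => hna (e ▸ hxw').symm
  by_cases c2 : adj r w w'
  · exact E.npc hr (X := [w, w', x']) (by simp [hr.ne hxw, hne, (hr.ne hxw').symm, n1, n4, n5])
      (by simpa using ⟨hx, hw, hw', hx'⟩)
      (by simp [bad_of_adj hxw, bad_of_adj hxw'.symm, bad_of_adj c2]) (by simp) rfl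
  by_cases c3 : ∃ u ∈ miss S L, adj r w u ∧ adj r w' u
  · obtain ⟨u, hu, h1, h2⟩ := c3
    have n6 : x ≠ u := fun e => n3 (e ▸ h2.symm)
    have n7 : u ≠ x' := fun e => n2 (e ▸ h1.symm)
    exact E.npc hr (X := [w, u, w', x'])
      (by simp [hr.ne hxw, hne, (hr.ne hxw').symm, n1, n4, n5, n6, n7, hr.ne h1, (hr.ne h2).symm])
      (by simpa using ⟨hx, hw, hu, hw', hx'⟩)
      (by simp [bad_of_adj hxw, bad_of_adj hxw'.symm, bad_of_adj h1, bad_of_adj h2.symm])
      (by simp) rfl
  exfalso
  have d1 := cover_nocommon hne hna c1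
  have d2 := cover_nocommon n1 c2 c3
  have p1 := E.npc hr (s := x) (X := [w]) (by simp [hr.ne hxw]) (by simpa using ⟨hx, hw⟩)
    (by simp [bad_of_adj hxw]) (by simp) (t := w) rfl
  have p2 := E.npc hr (s := x') (X := [w']) (by simp [hr.ne hxw']) (by simpa using ⟨hx', hw'⟩)
    (by simp [bad_of_adj hxw']) (by simp) (t := w') rfl
  have o1 := hO x (mem_miss.mp hx).1 x' (mem_miss.mp hx').1 hne hna
  have o2 := hO w (mem_miss.mp hw).1 w' (mem_miss.mp hw').1 n1 c2
  have e1 := nd_split (r := r) (S := S) x E.cyc.nodup E.cyc.sub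
  have e2 := nd_split (r := r) (S := S) x' E.cyc.nodup E.cyc.sub
  have e3 := nd_split (r := r) (S := S) w E.cyc.nodup E.cyc.sub
  have e4 := nd_split (r := r) (S := S) w' E.cyc.nodup E.cyc.sub
  have c0 := card_split (S := S) E.cyc.nodup E.cyc.sub
  omega

/-- The statement proved by induction on the number of vertices. -/
def Goal (r : V → V → Prop) (K : Finset V) : Prop :=
  ∀ l : ℤ, 1 ≤ l → 2 * l + 1 ≤ K.card → OreC r K (2 * l - 1) →
    ∃ Y, Cyc r K Y ∧ (∀ x ∈ K, x ∈ Y) ∧ (K.card : ℤ) ≤ cw (fw r) Y + l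

lemma Ext.clique (hr : Asym r) (hO : OreC r S (2 * l - 1)) (hn : 2 * l + 2 ≤ S.card)
    (IH : ∀ K : Finset V, K.card < S.card → Goal r K)
    {L : List V} (E : Ext r S l L) :
    (miss S L).card ≤ 3 ∧ ∀ x ∈ miss S L, ∀ x' ∈ miss S L, x ≠ x' → adj r x x' := by
  classical
  set K := (miss S L).filter (fun x => ∃ w ∈ miss S L, adj r x w) with hK
  set I := (miss S L).filter (fun x => ¬ ∃ w ∈ miss S L, adj r x w) with hI
  have c0 := card_split (S := S) E.cyc.nodup E.cyc.sub
  have c1 : K.card + I.card = (miss S L).card := Finset.card_filter_add_card_filter_not _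
  have hLpos : 0 < L.length := List.length_pos_iff.mpr E.cyc.ne
  have hIbig : ∀ y ∈ I, l ≤ nd r S y := fun y hy => by
    rw [Finset.mem_filter] at hy
    exact E.isolated_big hr hO hn hy.1 (fun w hw e => hy.2 ⟨w, hw, e⟩)
  have hI1 : I.card ≤ 1 := by
    rw [Finset.card_le_one]
    intro y hy y' hy'
    by_contra hne
    have h1 := Finset.mem_filter.mp hy
    have h2 := Finset.mem_filter.mp hy'
    exact h1.2 ⟨y', h2.1, big_adj hO (mem_miss.mp h1.1).1 (mem_miss.mp h2.1).1 hne (hIbig y hy)
      (hIbig y' hy')⟩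
  have hsplit : ∀ x ∈ K, nd r (miss S L) x = nd r K x + I.card := fun x hx => by
    unfold nd
    rw [← Finset.sum_filter_add_sum_filter_not (miss S L) (fun x => ∃ w ∈ miss S L, adj r x w)]
    congr 1
    rw [Finset.card_eq_sum_ones]
    push_cast
    apply Finset.sum_congr rfl
    intro y hy
    have h1 := Finset.mem_filter.mp hx
    have h2 := Finset.mem_filter.mp hy
    exact na_of_not (fun e => h2.2 (e ▸ h1.2)) (fun e => h2.2 ⟨x, h1.1, e.symm⟩)
  have hOK : OreC r K ((K.card : ℤ) - 3) := by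
    intro x hx x' hx' hne hna
    obtain ⟨h1, w, hw, hxw⟩ := Finset.mem_filter.mp hx
    obtain ⟨h2, w', hw', hxw'⟩ := Finset.mem_filter.mp hx'
    have := E.k1 hr hO hn h1 h2 hne hna hw hw' hxw hxw'
    have o1 := hO x (mem_miss.mp h1).1 x' (mem_miss.mp h2).1 hne hna
    have e1 := nd_split (r := r) (S := S) x E.cyc.nodup E.cyc.sub
    have e2 := nd_split (r := r) (S := S) x' E.cyc.nodup E.cyc.sub
    have := hsplit x hx
    have := hsplit x' hx'
    omega
  have hK3 : K.card ≤ 3 := by
    by_contra hc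
    obtain ⟨Y, y1, y2, y3⟩ := IH K (by omega) (((K.card : ℤ) - 1) / 2) (by omega) (by omega)
      (fun x hx x' hx' hne hna => by have := hOK x hx x' hx' hne hna; omega)
    have hYM : ∀ z ∈ Y, z ∈ miss S L := fun z hz => (Finset.mem_filter.mp (y1.sub z hz)).1
    have hlen : (K.card : ℤ) ≤ Y.length := by
      have : K ⊆ Y.toFinset := fun z hz => List.mem_toFinset.mpr (y2 z hz)
      have h1 := Finset.card_le_card this
      have h2 := List.toFinset_card_le Y
      omega
    have fin : ∀ P x y, Gap Y P [] x y → cw (fw r) Y ≤ 2 + fw r x y := fun P x y g => by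
      have h1 := E.path_le hr hO hn P (by simpa using y1.gap_nodup g)
        (fun z hz => hYM z ((g.mem z).2 (Or.inl hz))) (y1.gap_P g)
      have h2 := g.cw_eq (fw r)
      simp only [List.nil_append, pw_cons_cons, pw_single] at h2
      omega
    by_cases hd : cw (fw r) Y < Y.length
    · obtain ⟨x, y, ⟨P, g⟩, hxy⟩ := pair_lemma (fun x y => 1 - fw r x y) (L := Y) (by
        rw [cw_sub, cw_one]; omega)
      have := fin P x y g
      omega
    · obtain ⟨x, hx⟩ := List.exists_mem_of_ne_nil Y y1.ne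
      obtain ⟨y, P, g⟩ := exists_pair_left hx
      have := fin P x y g
      have := fw_le_one (r := r) x y
      omega
  have mixed : ∀ y ∈ I, ∀ x ∈ K, False := fun y hy x hx => by
    obtain ⟨h1, w, hw, hxw⟩ := Finset.mem_filter.mp hx
    have h2 := Finset.mem_filter.mp hy
    have hb := hIbig y hy
    have n1 : ¬ adj r y x := fun e => h2.2 ⟨x, h1, e⟩
    have n2 : ¬ adj r y w := fun e => h2.2 ⟨w, hw, e⟩
    have m1 : y ≠ x := fun e => n2 (e ▸ hxw)
    have m2 : y ≠ w := fun e => n1 (e ▸ hxw.symm)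
    have o1 := hO y (mem_miss.mp h2.1).1 x (mem_miss.mp h1).1 m1 n1
    have o2 := hO y (mem_miss.mp h2.1).1 w (mem_miss.mp hw).1 m2 n2
    have p1 := E.npc hr (s := x) (X := [w]) (by simp [hr.ne hxw]) (by simpa using ⟨h1, hw⟩)
      (by simp [bad_of_adj hxw]) (by simp) (t := w) rfl
    have e1 := nd_split (r := r) (S := S) x E.cyc.nodup E.cyc.sub
    have e2 := nd_split (r := r) (S := S) w E.cyc.nodup E.cyc.sub
    have q1 := one_le_nd (r := r) h2.1 m1 (fun e => n1 e.symm)
    have q2 := one_le_nd (r := r) h2.1 m2 (fun e => n2 e.symm)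
    omega
  have hmem : ∀ x ∈ miss S L, x ∈ K ∨ x ∈ I := fun x hx => by
    by_cases e : ∃ w ∈ miss S L, adj r x w
    · exact Or.inl (Finset.mem_filter.mpr ⟨hx, e⟩)
    · exact Or.inr (Finset.mem_filter.mpr ⟨hx, e⟩)
  constructor
  · by_cases e : I.card = 0
    · omega
    · obtain ⟨y, hy⟩ := Finset.card_pos.mp (Nat.pos_of_ne_zero e)
      have : K.card = 0 := by
        by_contra e'
        obtain ⟨x, hx⟩ := Finset.card_pos.mp (Nat.pos_of_ne_zero e')
        exact mixed y hy x hx
      omega
  · intro x hx x' hx' hne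
    by_contra hna
    rcases hmem x hx with h1 | h1 <;> rcases hmem x' hx' with h2 | h2
    · have := hOK x h1 x' h2 hne hna
      have := one_le_nd (r := r) h2 hne.symm hna
      have := one_le_nd (r := r) h1 hne (fun e => hna e.symm)
      omega
    · exact mixed x' h2 x h1
    · exact mixed x h1 x' h2
    · exact hne (Finset.card_le_one.mp hI1 x h1 x' h2)

end Pool.Agent.MP_bbfc69_co

end MrgPart3

-- ======== part 4: formerly Pool.Agent.MP_bbfc69_co.Big
section MrgPart4

/-!
Big missed vertices and the inductive step.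
-/

namespace Pool.Agent.MP_bbfc69_co

variable {V : Type*} {r : V → V → Prop} {S : Finset V} {l : ℤ} [DecidableEq V]

/-- Replacing a segment of small vertices by a path through a big missed vertex loses richness. -/
lemma Ext.swap_big {L P Z U : List V} {a b s t y : V} (E : Ext r S l L) (g : Gap L P Z a b)
    (hU : U.Nodup) (hUM : ∀ z ∈ U, z ∈ miss S L) (hUg : pw (bad r) U = 0)
    (hs : U.head? = some s) (ht : U.getLast? = some t) (has : adj r a s) (htb : adj r t b)
    (hy : y ∈ U) (hyb : l ≤ nd r S y) (hZ : ∀ z ∈ Z, nd r S z < l) :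
    cw (fw r) L - pw (fw r) (a :: (Z ++ [b])) + fw r a s + pw (fw r) U + fw r t b + l
      < S.card := by
  have hc : Cyc r S (P ++ U) := E.cyc.replace g hU (fun z hz => (mem_miss.mp (hUM z hz)).1)
    (fun z hz hz' => (mem_miss.mp (hUM z hz)).2 ((g.mem z).2 (Or.inl hz')))
    (by rw [pw_link _ hs ht, bad_of_adj has, bad_of_adj htb, hUg]; rfl)
  have hf := g.cw_replace (fw r) U
  rw [pw_link _ hs ht] at hf
  by_contra hcon
  have hmm := g.mem_miss_new (U := U) E.cyc (fun x hx => (mem_miss.mp (hUM x hx)).2)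
  have h2 : nb r S l (P ++ U) < nb r S l L := by
    apply Finset.card_lt_card
    constructor
    · intro x hx
      rw [Finset.mem_filter] at hx ⊢
      rcases (hmm x).1 hx.1 with e | e
      · exact ⟨e.1, hx.2⟩
      · exact absurd hx.2 (not_le.mpr (hZ x e))
    · intro e
      have := e (Finset.mem_filter.mpr ⟨hUM y hy, hyb⟩)
      exact (mem_miss.mp (Finset.mem_filter.mp this).1).2 (by simp [hy])
  have := E.min _ hc (by omega)
  omega

lemma Ext.swap_count (hr : Asym r) (hO : OreC r S (2 * l - 1)) (hn : 2 * l + 2 ≤ S.card)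
    {L U : List V} {y y' : V} (E : Ext r S l L) (hyb : l ≤ nd r S y) (hyb' : l ≤ nd r S y')
    (hU : U.Nodup) (hUM : ∀ z ∈ U, z ∈ miss S L) (hUg : pw (bad r) U = 0)
    (hs : U.head? = some y) (ht : U.getLast? = some y') :
    ls (fun x => ind (adj r y x ∨ adj r y' x) * (cw (fw r) L + l - S.card + 1 - pw (fw r) U)
        + pw (fw r) U * ind (adj r y x) + ind (adj r y x) * fw r x y
        + (1 - ind (adj r y x)) * ind (adj r y' x) * fw r x y') L +
      ls (fun x => pw (fw r) U * ind (adj r y' x) + ind (adj r y' x) * fw r y' x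
        + (1 - ind (adj r y' x)) * ind (adj r y x) * fw r y x) L ≤ cw (fw r) L := by
  by_contra hcon
  have hyM := hUM y (List.mem_of_head? hs)
  have hyM' := hUM y' (List.mem_of_getLast? ht)
  obtain ⟨x0, hx0, hx0'⟩ := E.has_nbr hr hO hn hyM
  obtain ⟨P, Z, a, b, g, ha, hb, hZ, hgap⟩ := gap_sum (fun x => adj r y x ∨ adj r y' x) _ _
    (fw r) ⟨x0, hx0, Or.inl hx0'⟩ (sub_pos.mpr (not_le.mp hcon))
  have hZ1 : ∀ z ∈ Z, ¬ adj r y z := fun z hz e => hZ z hz (Or.inl e)
  have hZ2 : ∀ z ∈ Z, ¬ adj r y' z := fun z hz e => hZ z hz (Or.inr e)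
  have hZs : ∀ z ∈ Z, nd r S z < l := fun z hz => by
    have hzL := (g.mem z).2 (Or.inr hz)
    have := hO y (mem_miss.mp hyM).1 z (E.cyc.sub z hzL)
      (fun e => (mem_miss.mp hyM).2 (e ▸ hzL)) (hZ1 z hz)
    omega
  rw [ls_eq_const (c := 0) (fun x hx => by
      rw [ind_neg (hZ x hx), ind_neg (hZ1 x hx), ind_neg (hZ2 x hx)]; ring),
    ls_eq_const (c := 0) (fun x hx => by
      rw [ind_neg (hZ1 x hx), ind_neg (hZ2 x hx)]; ring), ind_pos ha] at hgap
  have hq := pw_fw_nonneg (r := r) U
  by_cases c1 : adj r y a <;> by_cases c2 : adj r y' b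
  · have := E.swap_big g hU hUM hUg hs ht c1.symm c2 (List.mem_of_head? hs) hyb hZs
    rw [ind_pos c1, ind_pos c2] at hgap
    linarith
  · have c3 : adj r y b := hb.resolve_right c2
    have := E.swap_big (U := [y]) (s := y) (t := y) (y := y) g (by simp) (by simpa using hyM)
      (by simp) rfl rfl c1.symm c3 (by simp) hyb hZs
    rw [ind_pos c1, ind_neg c2, ind_pos c3] at hgap
    simp only [pw_single] at this
    linarith
  · have c3 : adj r y' a := ha.resolve_left c1
    have := E.swap_big (U := [y']) (s := y') (t := y') (y := y') g (by simp) (by simpa using hyM')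
      (by simp) rfl rfl c3.symm c2 (by simp) hyb' hZs
    rw [ind_neg c1, ind_pos c2, ind_pos c3] at hgap
    simp only [pw_single] at this
    linarith
  · have c3 : adj r y' a := ha.resolve_left c1
    have c4 : adj r y b := hb.resolve_right c2
    have hne : y' ≠ y := fun e => c1 (e ▸ c3)
    have hadj := big_adj hO (mem_miss.mp hyM').1 (mem_miss.mp hyM).1 hne hyb' hyb
    have := E.swap_big (U := [y', y]) (s := y') (t := y) (y := y) g (by simpa using hne)
      (by simpa using ⟨hyM', hyM⟩) (by simp [bad_of_adj hadj]) rfl rfl c3.symm c4 (by simp) hyb hZs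
    rw [ind_neg c1, ind_neg c2, ind_pos c3, ind_pos c4] at hgap
    have := pw_fw_nonneg (r := r) [y', y]
    linarith

lemma Ext.swap_count2 (hr : Asym r) (hO : OreC r S (2 * l - 1)) (hn : 2 * l + 2 ≤ S.card)
    {L X : List V} {y y' : V} (E : Ext r S l L) (hyb : l ≤ nd r S y) (hyb' : l ≤ nd r S y')
    (hU : (y :: X).Nodup) (hUM : ∀ z ∈ y :: X, z ∈ miss S L) (hUg : pw (bad r) (y :: X) = 0)
    (ht : (y :: X).getLast? = some y') :
    4 * ls (fun x => ind (adj r y x ∨ adj r y' x)) L +
      X.length * ls (fun x => ind (adj r y x ∧ adj r y' x)) L ≤ 2 * (S.card - l) := by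
  have h1 := E.swap_count hr hO hn hyb hyb' hU hUM hUg rfl ht
  have h2 := E.swap_count hr hO hn (U := (y :: X).reverse) hyb' hyb (List.nodup_reverse.mpr hU)
    (fun z hz => hUM z (List.mem_reverse.mp hz)) (by rw [pw_bad_reverse]; exact hUg)
    (by rw [List.head?_reverse]; exact ht) (by rw [List.getLast?_reverse]; rfl)
  have h3 := hr.pw_fw_reverse y X hUg
  set q1 := pw (fw r) (y :: X)
  set q2 := pw (fw r) (y :: X).reverse
  set σ := cw (fw r) L + l - S.card with hσ
  have hσ0 : 0 ≤ σ := by have := E.rich; omega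
  have h4 := add_le_add h1 h2
  rw [← ls_add, ← ls_add, ← ls_add,
    ls_congr (h := fun x => (2 * σ + 4) * ind (adj r y x ∨ adj r y' x) +
      X.length * ind (adj r y x ∧ adj r y' x)) (fun x _ => by
      by_cases c1 : adj r y x <;> by_cases c2 : adj r y' x
      · have := hr.fw_add c1
        have := hr.fw_add c2
        rw [ind_pos (Or.inl c1), ind_pos (Or.inl c2), ind_pos c1, ind_pos c2, ind_pos ⟨c1, c2⟩]
        linarith
      · have := hr.fw_add c1
        rw [ind_pos (Or.inl c1), ind_pos (Or.inr c1), ind_pos c1, ind_neg c2,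
          ind_neg (fun e => c2 e.2)]
        linarith
      · have := hr.fw_add c2
        rw [ind_pos (Or.inr c2), ind_pos (Or.inl c2), ind_neg c1, ind_pos c2,
          ind_neg (fun e => c1 e.1)]
        linarith
      · rw [ind_neg (p := adj r y x ∨ adj r y' x) (by tauto),
          ind_neg (p := adj r y' x ∨ adj r y x) (by tauto), ind_neg c1, ind_neg c2,
          ind_neg (fun e => c1 e.1)]
        ring),
    ls_add, ls_mul, ls_mul] at h4
  obtain ⟨x0, hx0, hx0'⟩ := E.has_nbr hr hO hn (hUM y (by simp))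
  have h5 := le_ls_of_mem (g := fun x => ind (adj r y x ∨ adj r y' x))
    (fun x _ => ind_nonneg _) hx0
  simp only [ind_pos (Or.inl hx0' : adj r y x0 ∨ adj r y' x0)] at h5
  nlinarith

omit [DecidableEq V] in
lemma ls_adj {L : List V} {v : V} (hv : v ∉ L) :
    ls (fun x => ind (adj r v x)) L = L.length - ls (na r v) L := by
  rw [ls_congr (h := fun x => 1 - na r v x) (fun x hx => by
    by_cases e : adj r v x
    · rw [ind_pos e, na_of_adj e]; rfl
    · rw [ind_neg e, na_of_not (v := v) (x := x) (fun e' => hv (e' ▸ hx)) e]; rfl), ls_sub, ls_const]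
  simp

/-- The cycle through all vertices but `u` given by the induction hypothesis. -/
lemma exists_del (hO : OreC r S (2 * l - 1)) (hn : 2 * l + 2 ≤ S.card) (hl : 1 ≤ l)
    (IH : ∀ K : Finset V, K.card < S.card → Goal r K) {u : V} (hu : u ∈ S) :
    ∃ Y, Cyc r S Y ∧ miss S Y = {u} ∧ (Y.length : ℤ) = S.card - 1 ∧
      ls (na r u) Y = nd r S u ∧ (S.card : ℤ) - 1 ≤ cw (fw r) Y + l := by
  have hc := Finset.card_erase_of_mem hu
  obtain ⟨Y, y1, y2, y3⟩ := IH (S.erase u) (by omega) l hl (by omega)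
    (fun x hx x' hx' hne hna => by
      have := hO x (Finset.mem_of_mem_erase hx) x' (Finset.mem_of_mem_erase hx') hne hna
      have := nd_mono (r := r) (Finset.erase_subset u S) x
      have := nd_mono (r := r) (Finset.erase_subset u S) x'
      omega)
  have hY : Cyc r S Y := ⟨y1.nodup, fun x hx => Finset.mem_of_mem_erase (y1.sub x hx), y1.ne, y1.good⟩
  have hm : miss S Y = {u} := by
    ext x
    rw [mem_miss, Finset.mem_singleton]
    constructor
    · intro hx
      by_contra e
      exact hx.2 (y2 x (Finset.mem_erase.mpr ⟨e, hx.1⟩))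
    · rintro rfl
      exact ⟨hu, fun e => (Finset.mem_erase.mp (y1.sub _ e)).1 rfl⟩
  have c1 := card_split (S := S) hY.nodup hY.sub
  have c2 := nd_split (r := r) (S := S) u hY.nodup hY.sub
  rw [hm] at c1 c2
  simp only [nd, Finset.sum_singleton, na_self, Finset.card_singleton] at c1 c2
  refine ⟨Y, hY, hm, by omega, by unfold nd; omega, by omega⟩

omit [DecidableEq V] in
lemma exists_nbr_of_lt {L : List V} {v : V} (hv : v ∉ L) (h : ls (na r v) L < L.length) :
    ∃ x ∈ L, adj r v x := by
  by_contra hc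
  push Not at hc
  rw [ls_eq_const (g := na r v) (c := 1)
    (fun x hx => na_of_not (v := v) (x := x) (fun e => hv (e ▸ hx)) (hc x hx))] at h
  omega

lemma exists_rich (hr : Asym r) (hO : OreC r S (2 * l - 1)) (hn : 2 * l + 2 ≤ S.card) (hl : 1 ≤ l)
    (IH : ∀ K : Finset V, K.card < S.card → Goal r K) :
    ∃ L, Cyc r S L ∧ (S.card : ℤ) ≤ cw (fw r) L + l := by
  obtain ⟨u, hu, hus⟩ : ∃ u ∈ S, nd r S u < l := by
    obtain ⟨v, hv⟩ := Finset.card_pos.mp (show 0 < S.card by omega)
    by_cases e : nd r S v < l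
    · exact ⟨v, hv, e⟩
    · obtain ⟨x, hx, h1, h2⟩ := exists_of_nd_pos (r := r) (T := S) (v := v) (by omega)
      have := hO v hv x hx h1.symm h2
      exact ⟨x, hx, by omega⟩
  obtain ⟨Y, y1, y2, y3, y4, y5⟩ := exists_del hO hn hl IH hu
  by_cases e : (S.card : ℤ) ≤ cw (fw r) Y + l
  · exact ⟨Y, y1, e⟩
  have huM : u ∈ miss S Y := by simp [y2]
  have huY := (mem_miss.mp huM).2
  obtain ⟨P, Z, a, b, g, k⟩ := gap_general hr y1.nodup huY (exists_nbr_of_lt huY (by omega))
    1 0 0 0 le_rfl u (by omega)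
  exact ⟨P ++ [u], g.cyc y1 huM, by have := g.fw_eq; omega⟩

/-- Comparison of an extremal cycle with the cycles obtained from a cycle missing one vertex. -/
lemma Ext.del_gap {L Y P Z : List V} {u a b : V} (E : Ext r S l L) (hY : Cyc r S Y)
    (hm : miss S Y = {u}) (hf : (S.card : ℤ) - 1 ≤ cw (fw r) Y + l) (g : VGap r Y u P Z a b)
    (he : 1 ≤ gain r u Z a b) :
    nb r S l L ≤ (Z.toFinset.filter (fun v => l ≤ nd r S v)).card ∧
      (nb r S l L < Z.length ∨ (miss S L).card ≤ Z.length) := by
  have huM : u ∈ miss S Y := by simp [hm]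
  have hmm := fun x => g.gap.mem_miss_new (U := [u]) hY (by simpa using (mem_miss.mp huM).2) x
  have hset : miss S (P ++ [u]) = Z.toFinset := by
    ext x; rw [hmm x, hm]; simp
  have h1 := E.min _ (g.cyc hY huM) (by have := g.fw_eq; omega)
  have h2 : nb r S l (P ++ [u]) = (Z.toFinset.filter (fun v => l ≤ nd r S v)).card := by
    unfold nb; rw [hset]
  have h3 := Finset.card_filter_le Z.toFinset (fun v => l ≤ nd r S v)
  have h4 := List.toFinset_card_le Z
  rw [hset] at h1
  omega

theorem step (hr : Asym r) (hO : OreC r S (2 * l - 1)) (hn : 2 * l + 2 ≤ S.card) (hl : 1 ≤ l)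
    (IH : ∀ K : Finset V, K.card < S.card → Goal r K) :
    ∃ Y, Cyc r S Y ∧ (∀ x ∈ S, x ∈ Y) ∧ (S.card : ℤ) ≤ cw (fw r) Y + l := by
  obtain ⟨L, E⟩ := exists_ext (exists_rich hr hO hn hl IH)
  by_contra hfin
  have hMne : (miss S L).Nonempty := by
    by_contra e
    refine hfin ⟨L, E.cyc, fun x hx => ?_, E.rich⟩
    by_contra e'
    exact e ⟨x, mem_miss.mpr ⟨hx, e'⟩⟩
  obtain ⟨hM3, hcl⟩ := E.clique hr hO hn IH
  have c0 := card_split (S := S) E.cyc.nodup E.cyc.sub
  have hrich := E.rich
  have hfle := cw_fw_le (r := r) L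
  have hnu : ∀ v ∈ miss S L, ls (na r v) L = nd r S v := fun v hv => by
    have e1 := nd_split (r := r) (S := S) v E.cyc.nodup E.cyc.sub
    have : nd r (miss S L) v = 0 := Finset.sum_eq_zero (fun x hx => by
      by_cases e : x = v
      · rw [e, na_self]
      · exact na_of_adj (hcl v hv x hx (Ne.symm e)))
    omega
  have two : ∀ s ∈ miss S L, ∀ t ∈ miss S L, s ≠ t → l ≤ nd r S s ∨ l ≤ nd r S t := by
    intro s hs t ht hne
    have := E.npc hr (s := s) (X := [t]) (t := t) (by simpa using hne) (by simpa using ⟨hs, ht⟩)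
      (by simp [bad_of_adj (hcl s hs t ht hne)]) (by simp) rfl
    rw [hnu s hs, hnu t ht] at this
    omega
  have hdeg : ∀ v ∈ miss S L, ls (fun x => ind (adj r v x)) L = L.length - nd r S v :=
    fun v hv => by rw [ls_adj (mem_miss.mp hv).2, hnu v hv]
  -- a single big vertex
  have single : ∀ y ∈ miss S L, l ≤ nd r S y → 2 * (L.length - nd r S y) ≤ S.card - l := by
    intro y hy hyb
    have := E.swap_count2 hr hO hn (X := []) (y := y) (y' := y) hyb hyb (by simp)
      (by simpa using hy) (by simp) rfl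
    simp only [or_self, List.length_nil] at this
    rw [hdeg y hy] at this
    omega
  -- analysis of a non-neighbour of a big missed vertex
  have tiny : ∀ y ∈ miss S L, l ≤ nd r S y → ∃ δ : ℤ, δ + nd r S y ≤ 2 * l - 1 ∧
      l - 2 * δ ≤ 1 ∧ (2 ≤ (miss S L).card → l - 2 * δ ≤ 0) ∧
      (3 ≤ (miss S L).card → 2 ≤ nb r S l L → 3 * l - 5 * δ ≤ 0) := by
    intro y hy hyb
    have hb1 : 1 ≤ nb r S l L :=
      Finset.card_pos.mpr ⟨y, Finset.mem_filter.mpr ⟨hy, hyb⟩⟩
    obtain ⟨u, hu, h1, h2⟩ := exists_of_nd_pos (r := r) (T := S) (v := y) (by omega)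
    have ho := hO y (mem_miss.mp hy).1 u hu h1.symm h2
    obtain ⟨Y, y1, y2, y3, y4, y5⟩ := exists_del hO hn hl IH hu
    have huM : u ∈ miss S Y := by simp [y2]
    have huY := (mem_miss.mp huM).2
    have hA := exists_nbr_of_lt (r := r) huY (by omega)
    have y6 : cw (fw r) Y + l = S.card - 1 := by
      by_contra e
      have h3 := E.min Y y1 (by omega)
      have h4 : nb r S l Y = 0 := by
        unfold nb
        rw [y2, Finset.card_eq_zero, Finset.filter_eq_empty_iff]
        intro x hx
        rw [Finset.mem_singleton.mp hx]; omega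
      omega
    have sing : ∀ P Z a b, VGap r Y u P Z a b → 0 < gain r u Z a b - Z.length →
        ∃ z, Z = [z] ∧ l ≤ nd r S z ∧ gain r u Z a b = 2 ∧ (miss S L).card ≤ 1 := by
      intro P Z a b g hg
      have k1 := gain_le (r := r) u Z a b
      obtain ⟨k2, k3⟩ := E.del_gap y1 y2 y5 g (by omega)
      match Z, g, hg, k1, k2, k3 with
      | [], g, hg, k1, k2, k3 => simp at k2; omega
      | [z], g, hg, k1, k2, k3 =>
        simp only [List.length_singleton] at hg k3
        refine ⟨z, rfl, ?_, by omega, by omega⟩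
        obtain ⟨x, hx⟩ := Finset.card_pos.mp (lt_of_lt_of_le hb1 k2)
        simp only [List.toFinset_cons, List.toFinset_nil, insert_empty_eq, Finset.mem_filter,
          Finset.mem_singleton] at hx
        exact hx.1 ▸ hx.2
      | z1 :: z2 :: Z, g, hg, k1, k2, k3 => simp at hg; omega
    refine ⟨nd r S u, by omega, ?_, ?_, ?_⟩
    · by_contra e
      obtain ⟨P1, Z1, a1, b1, g1, k1⟩ := gap_general hr y1.nodup huY hA 1 0 1 0 le_rfl u (by omega)
      obtain ⟨z1, rfl, hz1, m1, -⟩ := sing P1 Z1 a1 b1 g1 (by omega)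
      obtain ⟨P2, Z2, a2, b2, g2, k2⟩ := gap_general hr y1.nodup huY hA 1 0 1 1 (by omega) z1
        (by omega)
      have i0 := ind_nonneg (z1 ∈ Z2)
      obtain ⟨z2, rfl, hz2, m2, -⟩ := sing P2 Z2 a2 b2 g2 (by omega)
      have hne : z1 ≠ z2 := by
        rintro rfl
        rw [ind_pos (by simp)] at k2
        simp only [List.length_singleton] at k2
        omega
      have hz1S : z1 ∈ S := y1.sub _ ((g1.gap.mem _).2 (by simp))
      have hz2S : z2 ∈ S := y1.sub _ ((g2.gap.mem _).2 (by simp))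
      obtain ⟨L', n1, n2, n3, n4⟩ := two_singles hr hO hn y1 huM g1.gap g2.gap g1.ha g1.hb
        (g2.hZ z2 (by simp)) hne (big_adj hO hz1S hz2S hne hz1 hz2)
        (gain_single_le (v := u) (by omega))
      have := g1.fw_eq
      refine hfin ⟨L', n1, fun x hx => ?_, by omega⟩
      by_cases e' : x ∈ Y
      · exact n2 x e'
      · have : x ∈ miss S Y := mem_miss.mpr ⟨hx, e'⟩
        rw [y2, Finset.mem_singleton] at this
        exact this ▸ n3
    · intro h3
      by_contra e
      obtain ⟨P1, Z1, a1, b1, g1, k1⟩ := gap_general hr y1.nodup huY hA 1 0 1 0 le_rfl u (by omega)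
      obtain ⟨z1, -, -, -, m2⟩ := sing P1 Z1 a1 b1 g1 (by omega)
      omega
    · intro h3 h4
      by_contra e
      obtain ⟨P1, Z1, a1, b1, g1, k1⟩ := gap_general hr y1.nodup huY hA 3 0 2 0 le_rfl u (by omega)
      have k2 := gain_le (r := r) u Z1 a1 b1
      obtain ⟨-, k3⟩ := E.del_gap y1 y2 y5 g1 (by omega)
      omega
  have hWA : ∀ y y' : V, ls (fun x => ind (adj r y x ∨ adj r y' x)) L +
      ls (fun x => ind (adj r y x ∧ adj r y' x)) L =
      ls (fun x => ind (adj r y x)) L + ls (fun x => ind (adj r y' x)) L := fun y y' => by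
    rw [← ls_add, ← ls_add]
    apply ls_congr
    intro x _
    by_cases c1 : adj r y x <;> by_cases c2 : adj r y' x <;> simp [ind, c1, c2]
  have hWl : ∀ y y' : V, ls (fun x => ind (adj r y x)) L ≤
      ls (fun x => ind (adj r y x ∨ adj r y' x)) L := fun y y' => by
    apply ls_le
    intro x _
    by_cases c1 : adj r y x <;> by_cases c2 : adj r y' x <;> simp [ind, c1, c2]
  have hWr : ∀ y y' : V, ls (fun x => ind (adj r y' x)) L ≤
      ls (fun x => ind (adj r y x ∨ adj r y' x)) L := fun y y' => by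
    apply ls_le
    intro x _
    by_cases c1 : adj r y x <;> by_cases c2 : adj r y' x <;> simp [ind, c1, c2]
  have hM0 := Finset.card_pos.mpr hMne
  have hcases : (miss S L).card = 1 ∨ (miss S L).card = 2 ∨ (miss S L).card = 3 := by omega
  rcases hcases with h1 | h2 | h3
  · obtain ⟨y, hy⟩ := Finset.card_eq_one.mp h1
    have hyM : y ∈ miss S L := by simp [hy]
    have hyb := E.isolated_big hr hO hn hyM (fun w hw => by
      rw [hy, Finset.mem_singleton] at hw; rw [hw]; exact hr.irr y)
    have := single y hyM hyb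
    obtain ⟨δ, d1, d2, -, -⟩ := tiny y hyM hyb
    omega
  · have mixed : ∀ s ∈ miss S L, ∀ t ∈ miss S L, s ≠ t → nd r S s < l → l ≤ nd r S t → False := by
      intro s hs t ht hne hss htb
      have q1 := single t ht htb
      obtain ⟨δ, d1, -, d2, -⟩ := tiny t ht htb
      have d3 := d2 (by omega)
      have q2 := hnu s hs
      have q3 := E.slack_zero hs (by omega)
      have q4 := E.small_sum hr hO hn hs
      have q5 : (S.card : ℤ) = 2 * l + 2 := by omega
      have q6 : l = 2 * δ := by omega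
      have q7 : nd r S s = l - 1 := by omega
      have hsL := (mem_miss.mp hs).2
      obtain ⟨P, Z, a, b, g, k⟩ := gap_general hr E.cyc.nodup hsL (E.has_nbr hr hO hn hs)
        1 1 1 0 le_rfl s (by omega)
      obtain ⟨y, rfl, hyb⟩ := E.small_gap hr hO hn hs g (by omega)
      simp only [List.length_singleton] at k
      have hc := g.cyc E.cyc hs
      have hf := g.fw_eq
      have hg := gain_le (r := r) s [y] a b
      have hyL : y ∈ L := (g.gap.mem y).2 (by simp)
      have hmm := fun x => g.gap.mem_miss_new (U := [s]) E.cyc (by simpa using hsL) x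
      have hyM : y ∈ miss S (P ++ [s]) := (hmm y).2 (by simp)
      have hyP := (mem_miss.mp hyM).2
      have ho := hO s (mem_miss.mp hs).1 y (E.cyc.sub y hyL) (fun e => hsL (e ▸ hyL))
        (g.hZ y (by simp))
      have e1 := nd_split (r := r) (S := S) y hc.nodup hc.sub
      have e2 := nd_nonneg (r := r) (miss S (P ++ [s])) y
      have e3 : (P ++ [s]).length = L.length := by rw [g.gap.length]; simp
      have e4 := ls_adj (r := r) hyP
      have e5 := cw_fw_le (r := r) (P ++ [s])
      obtain ⟨L', n1, n2, n3, n4⟩ := insert_vertex hr hO hn hc hyM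
        (exists_nbr_of_lt hyP (by omega)) (gain r s [y] a b - 1) (by omega) (fun hnp => by
          have i1 : 0 ≤ cw (fun x x' => (ind (adj r y x) + ind (adj r y x')) * (1 - fw r x x'))
              (P ++ [s]) := cw_nonneg (fun x x' =>
            mul_nonneg (add_nonneg (ind_nonneg _) (ind_nonneg _)) (sub_nonneg.mpr (fw_le_one _ _)))
          by_cases e : gain r s [y] a b = 2
          · rw [e]; omega
          have e' : gain r s [y] a b = 1 := by omega
          rw [e']
          by_contra hcon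
          obtain ⟨x, x', hp, hx⟩ := pair_lemma (fun x x' => ((1 - fw r x x') -
              (ind (adj r y x) + ind (adj r y x')) * (1 - fw r x x')) -
              ((1 - ind (adj r y x)) - ind (adj r y x'))) (L := P ++ [s]) (by
            rw [cw_sub, cw_sub, cw_sub (fun _ _ => 1) (fw r), cw_one,
              cw_sub (fun x _ => 1 - ind (adj r y x)) (fun _ x' => ind (adj r y x')),
              cw_fst, cw_snd, ls_sub, ls_const]
            have q8 : 3 ≤ l := by omega
            have q9 : 4 ≤ l := by omega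
            omega)
          have := fw_nonneg (r := r) x x'
          by_cases c1 : adj r y x <;> by_cases c2 : adj r y x'
          · exact hnp x x' hp ⟨c1.symm, c2.symm⟩
          · rw [ind_pos c1, ind_neg c2] at hx; omega
          · rw [ind_neg c1, ind_pos c2] at hx; omega
          · rw [ind_neg c1, ind_neg c2] at hx; omega)
      have := E.not_rich n1 (fun x hx => by
        rcases (g.gap.mem x).1 hx with e | e
        · exact n2 x (by simp [e])
        · rw [List.mem_singleton.mp e]; exact n3) hs (n2 s (by simp))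
      omega
    obtain ⟨s, t, hne, hst⟩ := Finset.card_eq_two.mp h2
    have hs : s ∈ miss S L := by simp [hst]
    have ht : t ∈ miss S L := by simp [hst]
    by_cases c1 : l ≤ nd r S s <;> by_cases c2 : l ≤ nd r S t
    · have k1 := E.swap_count2 hr hO hn (X := [t]) (y := s) (y' := t) c1 c2 (by simpa using hne)
        (by simpa using ⟨hs, ht⟩) (by simp [bad_of_adj (hcl s hs t ht hne)]) rfl
      have k2 := hWA s t
      have k3 := hWl s t
      have k4 := hWr s t
      obtain ⟨δ, d1, -, d2, -⟩ := tiny s hs c1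
      obtain ⟨δ', d1', -, d2', -⟩ := tiny t ht c2
      have d3 := d2 (by omega)
      have d3' := d2' (by omega)
      rw [hdeg s hs] at k2 k3
      rw [hdeg t ht] at k2 k4
      have k5 := ls_nonneg (g := fun x => ind (adj r s x ∧ adj r t x)) (L := L)
        (fun x _ => ind_nonneg _)
      simp only [List.length_singleton] at k1
      omega
    · exact mixed t ht s hs hne.symm (by omega) c1
    · exact mixed s hs t ht hne (by omega) c2
    · have := two s hs t ht hne
      omega
  · have tri : ∀ y ∈ miss S L, ∀ y' ∈ miss S L, ∀ w ∈ miss S L, y ≠ y' → y ≠ w → w ≠ y' →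
        l ≤ nd r S y → l ≤ nd r S y' → False := by
      intro y hy y' hy' w hw n1 n2 n3 c1 c2
      have hb2 : 2 ≤ nb r S l L := by
        have : ({y, y'} : Finset V) ⊆ (miss S L).filter (fun v => l ≤ nd r S v) := by
          intro x hx
          simp only [Finset.mem_insert, Finset.mem_singleton] at hx
          rcases hx with rfl | rfl
          · exact Finset.mem_filter.mpr ⟨hy, c1⟩
          · exact Finset.mem_filter.mpr ⟨hy', c2⟩
        have := Finset.card_le_card this
        rw [Finset.card_pair n1] at this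
        exact this
      have k1 := E.swap_count2 hr hO hn (X := [w, y']) (y := y) (y' := y') c1 c2
        (by simp [n1, n2, n3]) (by simpa using ⟨hy, hw, hy'⟩)
        (by simp [bad_of_adj (hcl y hy w hw n2), bad_of_adj (hcl w hw y' hy' n3)]) rfl
      have k2 := hWA y y'
      have k3 := hWl y y'
      have k4 := hWr y y'
      obtain ⟨δ, d1, -, -, d2⟩ := tiny y hy c1
      obtain ⟨δ', d1', -, -, d2'⟩ := tiny y' hy' c2
      have d3 := d2 (by omega) hb2
      have d3' := d2' (by omega) hb2
      rw [hdeg y hy] at k2 k3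
      rw [hdeg y' hy'] at k2 k4
      simp only [List.length_cons, List.length_nil] at k1
      omega
    obtain ⟨x, y, z, n1, n2, n3, hxyz⟩ := Finset.card_eq_three.mp h3
    have hx : x ∈ miss S L := by simp [hxyz]
    have hy : y ∈ miss S L := by simp [hxyz]
    have hz : z ∈ miss S L := by simp [hxyz]
    have t1 := two x hx y hy n1
    have t2 := two x hx z hz n2
    have t3 := two y hy z hz n3
    by_cases c1 : l ≤ nd r S x <;> by_cases c2 : l ≤ nd r S y
    · exact tri x hx y hy z hz n1 n2 n3.symm c1 c2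
    · exact tri x hx z hz y hy n2 n1 n3 c1 (by omega)
    · exact tri y hy z hz x hx n3 n1.symm n2 c2 (by omega)
    · omega

theorem half_dir (hr : Asym r) {K : Finset V} (h2 : 2 ≤ K.card)
    (hO : OreC r K ((K.card : ℤ) - 2)) :
    ∃ Y, Cyc r K Y ∧ (∀ x ∈ K, x ∈ Y) ∧ (K.card : ℤ) ≤ 2 * cw (fw r) Y := by
  obtain ⟨Y, y1, y2⟩ := ore h2 hO
  have h := hr.cw_fw_reverse Y y1.good
  have hlen : (K.card : ℤ) ≤ Y.length := by
    have : K ⊆ Y.toFinset := fun z hz => List.mem_toFinset.mpr (y2 z hz)
    have h1 := Finset.card_le_card this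
    have h2 := List.toFinset_card_le Y
    omega
  by_cases e : (K.card : ℤ) ≤ 2 * cw (fw r) Y
  · exact ⟨Y, y1, y2, e⟩
  · exact ⟨Y.reverse, y1.reverse, fun x hx => List.mem_reverse.mpr (y2 x hx), by omega⟩

theorem goal (hr : Asym r) (K : Finset V) : Goal r K := by
  induction hN : K.card using Nat.strong_induction_on generalizing K with
  | _ N ih =>
  intro l hl hn hO
  by_cases e : 2 * l + 2 ≤ K.card
  · exact step hr hO e hl (fun K' hK' => ih K'.card (by omega) K' rfl)
  · obtain ⟨Y, y1, y2, y3⟩ := half_dir hr (K := K) (by omega)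
      (fun u hu v hv hne hna => by have := hO u hu v hv hne hna; omega)
    exact ⟨Y, y1, y2, by omega⟩

end Pool.Agent.MP_bbfc69_co

end MrgPart4

-- marker of a merged file
example : 731051 + 352665 = 731051 + 352665 := rfl
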